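import Pool.Agent.MP_515557_an.H14.Refl

/-! The polynomial inequalities behind the bound for the Beurling-Ahlfors transform. -/

set_option autoImplicit false

namespace Pool.Agent.MP_515557_an.H14.BA

def ex : Ex := .m (.v 0) (.v 0)
def ey : Ex := .m (.v 1) (.v 1)
def eh2 : Ex := .m (.v 2) (.v 2)
def elam : Ex := .a (.m (.c 11) (.v 2)) (.m (.c 36) (.v 3))
def eK : Ex := .a (.m (.c 5) (.v 2)) (.m (.c 11) (.v 3))
def emu : Ex := .m eK eK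
def eqq : Ex := .a (.v 2) (.v 3)
def eam : Ex := .a (.v 3) (.m (.c (-1)) (.v 2))
def eb : Ex := .a (.m (.c 20) (.m (.v 2) ex)) (.m elam ey)
def eu : Ex := .a (.m (.c 20) (.m (.v 2) (.v 0))) (.m elam (.v 1))
def eL : Ex := .a (.m emu ey) (.m (.c (-1)) (.m (.c 25) (.m eh2 ex)))
def evv : Ex := .a (.m emu (.v 1)) (.m (.c (-1)) (.m (.c 25) (.m eh2 (.v 0))))
def ef1 : Ex := .m (.c 25) (.m (.a (.m (.c 3) (.v 2)) (.m (.c 5) (.v 3))) eh2)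
def ef2 : Ex := .m (.c 2) (.m emu eqq)
def eP : Ex := .a (.m ef1 ex) (.m ef2 ey)
def eg2 : Ex := .m ef2 elam
def ehb : Ex := .m (.v 2) eb
def eM11 : Ex := .m eqq (.a (.a (.a (.m (.c 4) (.m eam (.m eL (.m eu eu)))) (.m (.c 2) (.m (.a (.m (.c 20) (.v 2)) elam) (.m ehb eL)))) (.m (.c 8) (.m ehb (.m eu evv)))) (.m (.c 2) (.m (.m (.a (.m (.c 110) (.v 2)) (.m (.c 121) (.v 3))) eh2) (.m eb eb))))
def eM12 : Ex := .a (.m (.c 20) (.a (.a (.a (.m ehb eP) (.m (.v 0) (.m eam (.m eu eP)))) (.m (.v 0) (.m ehb (.a (.m ef1 (.v 0)) (.m ef2 (.v 1)))))) (.m (.m (.v 0) eqq) (.a (.m (.c 2) (.m eam (.m eu eL))) (.m (.c 2) (.m ehb evv)))))) (.m (.c (-1)) (.m (.c 50) (.m (.m (.v 0) eqq) (.m eh2 (.m eb eu)))))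
def eM13 : Ex := .a (.a (.m (.c 2) (.m ehb (.m eg2 (.v 1)))) (.m eam (.m eu (.m eg2 ey)))) (.m eqq (.a (.a (.m (.c 2) (.m (.m eam elam) (.m eu eL))) (.m (.c 2) (.m elam (.m ehb evv)))) (.m (.c 2) (.m emu (.m ehb eu)))))
def eM22 : Ex := .a (.a (.m (.c 40) (.m eb eP)) (.m (.c 800) (.m (.m ex eam) eP))) (.m (.c 40) (.m (.m ex ef1) eb))
def eM23 : Ex := .m (.c 20) (.m (.v 0) (.a (.a (.m (.m eam elam) eP) (.m ef2 ehb)) (.m eam (.m eg2 ey))))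
def eM33 : Ex := .m (.c 2) (.m eg2 (.a (.m (.c 2) ehb) (.m (.m eam elam) ey)))

def eD : Ex := Ex.det eM11 eM12 eM13 eM22 eM23 eM33

def eS : Ex := .m (.a (.m ex (.m ex ex)) (.m ey (.m ey ey))) (.m eh2 (.m eh2 (.m eh2 (.m eh2 eh2))))

def eN : Ex := .a (.a (.m eM22 eM33) (.m (.c (-1)) (.m eM23 eM23))) (.m (.c (-1)) eS)

theorem nnD {ρ α : ℝ} (s : ℝ) (hρ : 0 ≤ ρ) (hα : 0 ≤ α) : 0 ≤ eD.ev (env4 ρ s 1 α) :=
  nn_half (κ := 2) (T1 := .leaf) (T2 := .sa 0 0 (.sa 0 0 .leaf .leaf) .leaf)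
    (by decide +kernel) (by decide +kernel) (by decide +kernel) (by decide +kernel)
    (by decide +kernel) (by decide +kernel) s hρ hα

theorem nnN {ρ α : ℝ} (s : ℝ) (hρ : 0 ≤ ρ) (hα : 0 ≤ α) : 0 ≤ eN.ev (env4 ρ s 1 α) :=
  nn_half (κ := 2) (T1 := .leaf) (T2 := .leaf)
    (by decide +kernel) (by decide +kernel) (by decide +kernel) (by decide +kernel)
    (by decide +kernel) (by decide +kernel) s hρ hα

end Pool.Agent.MP_515557_an.H14.BA
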