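import Mathlib

/-! A Burkholder type majorisation inequality. -/

set_option autoImplicit false

open Set Real

namespace Pool.Agent.MP_515557_an.H14

theorem nonneg_of_convex_deriv {h g : ℝ → ℝ} {lo : ℝ} (hg : ConvexOn ℝ (Icc lo 0) g) (g0 : g 0 = 0)
    (h0 : h 0 = 0) (hlo : 0 ≤ h lo) (hc : ContinuousOn h (Icc lo 0))
    (hd : ∀ η ∈ Ioo lo 0, HasDerivAt h (g η) η) {η : ℝ} (hη : η ∈ Icc lo 0) : 0 ≤ h η := by
  have key : ∀ a ∈ Icc lo 0, g a ≤ 0 → ∀ b ∈ Icc a 0, g b ≤ 0 := by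
    intro a ha hga b hb
    have h1 := hg.le_on_segment ha (right_mem_Icc.2 (ha.1.trans ha.2))
      (by rwa [segment_eq_Icc ha.2] : b ∈ segment ℝ a 0)
    exact h1.trans (max_le hga g0.le)
  rcases le_or_gt (g η) 0 with h1 | h1
  · have hm : AntitoneOn h (Icc η 0) := by
      refine antitoneOn_of_hasDerivWithinAt_nonpos (f' := g) (convex_Icc _ _)
        (hc.mono (Icc_subset_Icc_left hη.1)) (fun x hx => ?_) fun x hx => ?_
      · rw [interior_Icc] at hx
        exact (hd x ⟨hη.1.trans_lt hx.1, hx.2⟩).hasDerivWithinAt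
      · rw [interior_Icc] at hx
        exact key η hη h1 x (Ioo_subset_Icc_self hx)
    rw [← h0]
    exact hm (left_mem_Icc.2 hη.2) (right_mem_Icc.2 hη.2) hη.2
  · have hm : MonotoneOn h (Icc lo η) := by
      refine monotoneOn_of_hasDerivWithinAt_nonneg (f' := g) (convex_Icc _ _)
        (hc.mono (Icc_subset_Icc_right hη.2)) (fun x hx => ?_) fun x hx => ?_
      · rw [interior_Icc] at hx
        exact (hd x ⟨hx.1, hx.2.trans_le hη.2⟩).hasDerivWithinAt
      · rw [interior_Icc] at hx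
        by_contra hc'
        have := key x ⟨hx.1.le, hx.2.le.trans hη.2⟩ (not_le.1 hc').le η ⟨hx.2.le, hη.2⟩
        linarith
    exact hlo.trans (hm (left_mem_Icc.2 hη.1) (right_mem_Icc.2 hη.1) hη.1)

theorem nonneg_of_deriv_nonpos {h g : ℝ → ℝ} {lo : ℝ} (hg : ∀ η ∈ Ioo lo 0, g η ≤ 0)
    (h0 : h 0 = 0) (hc : ContinuousOn h (Icc lo 0))
    (hd : ∀ η ∈ Ioo lo 0, HasDerivAt h (g η) η) {η : ℝ} (hη : η ∈ Icc lo 0) : 0 ≤ h η := by
  have hm : AntitoneOn h (Icc lo 0) := by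
    refine antitoneOn_of_hasDerivWithinAt_nonpos (f' := g) (convex_Icc _ _) hc
      (fun x hx => ?_) fun x hx => ?_
    · rw [interior_Icc] at hx
      exact (hd x hx).hasDerivWithinAt
    · rw [interior_Icc] at hx
      exact hg x hx
  rw [← h0]
  exact hm hη (right_mem_Icc.2 (hη.1.trans hη.2)) hη.2

theorem aff_convex {α c d lo : ℝ} (hα : 1 ≤ α) (h : ∀ η ∈ Icc lo 0, 0 ≤ c + d * η) :
    ConvexOn ℝ (Icc lo 0) fun η => (c + d * η) ^ α := by
  refine ⟨convex_Icc _ _, fun x hx y hy a b ha hb hab => ?_⟩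
  have := (convexOn_rpow hα).2 (h x hx) (h y hy) ha hb hab
  simp only [smul_eq_mul] at this ⊢
  convert this using 2
  linear_combination (-c) * hab

theorem aff_concave {α c d lo : ℝ} (h0 : 0 ≤ α) (hα : α ≤ 1) (h : ∀ η ∈ Icc lo 0, 0 ≤ c + d * η) :
    ConcaveOn ℝ (Icc lo 0) fun η => (c + d * η) ^ α := by
  refine ⟨convex_Icc _ _, fun x hx y hy a b ha hb hab => ?_⟩
  have := (Real.concaveOn_rpow h0 hα).2 (h x hx) (h y hy) ha hb hab
  simp only [smul_eq_mul] at this ⊢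
  convert this using 2
  linear_combination (-c) * hab

theorem aff_deriv {α c d η : ℝ} (h : 0 < c + d * η) :
    HasDerivAt (fun η => (c + d * η) ^ (α + 1)) ((α + 1) * d * (c + d * η) ^ α) η := by
  have h1 : HasDerivAt (fun η => c + d * η) d η := by
    simpa using ((hasDerivAt_id η).const_mul d).const_add c
  refine (h1.rpow_const (p := α + 1) (Or.inl h.ne')).congr_deriv ?_
  rw [add_sub_cancel_right]; ring

theorem aff_cont {α c d : ℝ} (h : 0 ≤ α) : Continuous fun η : ℝ => (c + d * η) ^ (α + 1) :=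
  (continuous_const.add (continuous_const.mul continuous_id)).rpow_const fun _ =>
    Or.inr (by linarith)

theorem maj_one {α γ : ℝ} (h0 : 0 ≤ α) (hγ : 1 ≤ γ) (c1 : α ≤ 1 → α + 1 ≤ (1 + γ) ^ α)
    (c2 : 1 ≤ α → (1 + γ⁻¹) ^ α ≤ α + 1) {η : ℝ} (hlo : -γ⁻¹ ≤ η) (hhi : η ≤ 1) :
    (α + 1) * (1 + γ) * η ≤ (1 + γ * η) ^ (α + 1) - (1 + (-1) * η) ^ (α + 1) := by
  have hγ0 : 0 < γ := by linarith
  have hi : 0 < γ⁻¹ := inv_pos.2 hγ0
  have gi : γ * γ⁻¹ = 1 := mul_inv_cancel₀ hγ0.ne'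
  have w1 : 0 ≤ γ / (1 + γ) := by positivity
  have w2 : 0 ≤ 1 / (1 + γ) := by positivity
  have w3 : γ / (1 + γ) + 1 / (1 + γ) = 1 := by field_simp; ring
  have w4 : ∀ η : ℝ, γ / (1 + γ) * (1 + γ * η) + 1 / (1 + γ) * (1 + (-1) * η) = 1 + (γ - 1) * η := by
    intro η; field_simp; ring
  rcases le_total η 0 with hη | hη
  · have p1 : ∀ η ∈ Icc (-γ⁻¹) 0, 0 ≤ 1 + γ * η := fun η h => by nlinarith [h.1]
    have p2 : ∀ η ∈ Icc (-γ⁻¹) 0, 0 ≤ 1 + (-1) * η := fun η h => by linarith [h.2]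
    have hd : ∀ η ∈ Ioo (-γ⁻¹) 0, HasDerivAt
        (fun η => (1 + γ * η) ^ (α + 1) - (1 + (-1) * η) ^ (α + 1) - (α + 1) * (1 + γ) * η)
        ((α + 1) * γ * (1 + γ * η) ^ α + (α + 1) * (1 + (-1) * η) ^ α - (α + 1) * (1 + γ)) η := by
      intro η h
      refine (((aff_deriv (α := α) (by nlinarith [h.1] : 0 < 1 + γ * η)).fun_sub
        (aff_deriv (α := α) (by linarith [h.2] : 0 < 1 + (-1) * η))).fun_sub
        ((hasDerivAt_id η).const_mul ((α + 1) * (1 + γ)))).congr_deriv ?_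
      ring
    have hc : ContinuousOn
        (fun η => (1 + γ * η) ^ (α + 1) - (1 + (-1) * η) ^ (α + 1) - (α + 1) * (1 + γ) * η)
        (Icc (-γ⁻¹) 0) :=
      (((aff_cont h0).sub (aff_cont h0)).sub (continuous_const.mul continuous_id)).continuousOn
    rcases le_total α 1 with hα | hα
    · have := nonneg_of_deriv_nonpos (fun η h => ?_) (by simp) hc hd ⟨hlo, hη⟩
      · linarith
      have h1 := (Real.concaveOn_rpow h0 hα).2 (p1 η (Ioo_subset_Icc_self h))
        (p2 η (Ioo_subset_Icc_self h)) w1 w2 w3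
      simp only [smul_eq_mul] at h1
      rw [w4] at h1
      have h2 : (1 + (γ - 1) * η) ^ α ≤ 1 :=
        rpow_le_one (by nlinarith [h.1, h.2, p1 η (Ioo_subset_Icc_self h)]) (by nlinarith [h.2]) h0
      have h3 := mul_le_mul_of_nonneg_left (h1.trans h2) (by positivity : 0 ≤ (α + 1) * (1 + γ))
      have e : (α + 1) * (1 + γ) * (γ / (1 + γ) * (1 + γ * η) ^ α
          + 1 / (1 + γ) * (1 + (-1) * η) ^ α)
          = (α + 1) * γ * (1 + γ * η) ^ α + (α + 1) * (1 + (-1) * η) ^ α := by field_simp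
      linarith
    · have := nonneg_of_convex_deriv ?_ (by simp; ring) (by simp) ?_ hc hd ⟨hlo, hη⟩
      · linarith
      · exact (((aff_convex hα p1).smul (by positivity : 0 ≤ (α + 1) * γ)).add
          ((aff_convex hα p2).smul (by positivity : 0 ≤ α + 1))).sub
          (concaveOn_const _ (convex_Icc _ _))
      · have e1 : 1 + γ * -γ⁻¹ = 0 := by linarith
        have e2 : 1 + (-1) * -γ⁻¹ = 1 + γ⁻¹ := by ring
        simp only [e1, e2]
        rw [zero_rpow (by linarith), rpow_add_one (by positivity)]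
        have := mul_le_mul_of_nonneg_right (c2 hα) (by positivity : 0 ≤ 1 + γ⁻¹)
        nlinarith
  · have p1 : ∀ η ∈ Icc (-1 : ℝ) 0, 0 ≤ 1 + (-γ) * η := fun η h => by nlinarith [h.2]
    have p2 : ∀ η ∈ Icc (-1 : ℝ) 0, 0 ≤ 1 + 1 * η := fun η h => by linarith [h.1]
    have hd : ∀ η ∈ Ioo (-1 : ℝ) 0, HasDerivAt
        (fun η => (1 + (-γ) * η) ^ (α + 1) - (1 + 1 * η) ^ (α + 1) + (α + 1) * (1 + γ) * η)
        ((α + 1) * (1 + γ) - ((α + 1) * γ * (1 + (-γ) * η) ^ α + (α + 1) * (1 + 1 * η) ^ α)) η := by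
      intro η h
      refine (((aff_deriv (α := α) (by nlinarith [h.2] : 0 < 1 + (-γ) * η)).fun_sub
        (aff_deriv (α := α) (by linarith [h.1] : 0 < 1 + 1 * η))).fun_add
        ((hasDerivAt_id η).const_mul ((α + 1) * (1 + γ)))).congr_deriv ?_
      ring
    have hc : ContinuousOn
        (fun η => (1 + (-γ) * η) ^ (α + 1) - (1 + 1 * η) ^ (α + 1) + (α + 1) * (1 + γ) * η)
        (Icc (-1 : ℝ) 0) :=
      (((aff_cont h0).sub (aff_cont h0)).add (continuous_const.mul continuous_id)).continuousOn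
    have fin : 0 ≤ (1 + (-γ) * -η) ^ (α + 1) - (1 + 1 * -η) ^ (α + 1) + (α + 1) * (1 + γ) * -η →
        (α + 1) * (1 + γ) * η ≤ (1 + γ * η) ^ (α + 1) - (1 + (-1) * η) ^ (α + 1) := by
      intro h
      have e1 : 1 + (-γ) * -η = 1 + γ * η := by ring
      have e2 : 1 + 1 * -η = 1 + (-1) * η := by ring
      rw [e1, e2] at h
      linarith
    refine fin ?_
    rcases le_total α 1 with hα | hα
    · refine nonneg_of_convex_deriv ?_ (by simp; ring) (by simp) ?_ hc hd
        ⟨by linarith, by linarith⟩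
      · exact (convexOn_const _ (convex_Icc _ _)).sub
          (((aff_concave h0 hα p1).smul (by positivity : 0 ≤ (α + 1) * γ)).add
          ((aff_concave h0 hα p2).smul (by positivity : 0 ≤ α + 1)))
      · have e1 : 1 + (-γ) * -1 = 1 + γ := by ring
        have e2 : (1 : ℝ) + 1 * -1 = 0 := by ring
        simp only [e1, e2]
        rw [zero_rpow (by linarith), rpow_add_one (by positivity)]
        have := mul_le_mul_of_nonneg_right (c1 hα) (by positivity : 0 ≤ 1 + γ)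
        nlinarith
    · refine nonneg_of_deriv_nonpos (fun η h => ?_) (by simp) hc hd ⟨by linarith, by linarith⟩
      have h1 := (convexOn_rpow hα).2 (p1 η (Ioo_subset_Icc_self h))
        (p2 η (Ioo_subset_Icc_self h)) w1 w2 w3
      simp only [smul_eq_mul] at h1
      have w5 : γ / (1 + γ) * (1 + (-γ) * η) + 1 / (1 + γ) * (1 + 1 * η) = 1 + (1 - γ) * η := by
        field_simp; ring
      rw [w5] at h1
      have h2 : 1 ≤ (1 + (1 - γ) * η) ^ α := one_le_rpow (by nlinarith [h.2]) h0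
      have h3 := mul_le_mul_of_nonneg_left (h2.trans h1) (by positivity : 0 ≤ (α + 1) * (1 + γ))
      have e : (α + 1) * (1 + γ) * (γ / (1 + γ) * (1 + (-γ) * η) ^ α
          + 1 / (1 + γ) * (1 + 1 * η) ^ α)
          = (α + 1) * γ * (1 + (-γ) * η) ^ α + (α + 1) * (1 + 1 * η) ^ α := by field_simp
      linarith

theorem maj {α γ : ℝ} (h0 : 0 ≤ α) (hγ : 1 ≤ γ) (c1 : α ≤ 1 → α + 1 ≤ (1 + γ) ^ α)
    (c2 : 1 ≤ α → (1 + γ⁻¹) ^ α ≤ α + 1) {a x : ℝ} (ha : 0 ≤ a) (hx : 0 ≤ x) :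
    (α + 1) * ((a + γ * x) / (1 + γ)) ^ α * (a - x) ≤ a ^ (α + 1) - x ^ (α + 1) := by
  have hγ0 : 0 < γ := by linarith
  set m := (a + γ * x) / (1 + γ) with hm
  have hm1 : (1 + γ) * m = a + γ * x := by rw [hm]; field_simp
  have hm0 : 0 ≤ m := by positivity
  rcases hm0.eq_or_lt with h | h
  · have h1 : a + γ * x = 0 := by rw [← hm1, ← h, mul_zero]
    have h2 : 0 ≤ γ * x := by positivity
    have ha0 : a = 0 := by linarith
    have hx0 : x = 0 := by
      rcases mul_eq_zero.1 (show γ * x = 0 by linarith) with h | h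
      · linarith
      · exact h
    simp [ha0, hx0]
  · have e1 : a = m * (1 + γ * (1 - x / m)) := by field_simp; linarith
    have e2 : x = m * (1 + (-1) * (1 - x / m)) := by field_simp; ring
    have p1 : 0 ≤ 1 + γ * (1 - x / m) := by
      rw [e1] at ha; exact nonneg_of_mul_nonneg_right ha h
    have p2 : 0 ≤ 1 + (-1) * (1 - x / m) := by
      have : 0 ≤ x / m := by positivity
      linarith
    have k := maj_one h0 hγ c1 c2 (η := 1 - x / m) (by
      rw [neg_le, ← one_div, le_div_iff₀ hγ0]; linarith) (by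
      have : 0 ≤ x / m := by positivity
      linarith)
    have k2 := mul_le_mul_of_nonneg_left k (rpow_nonneg hm0 (α + 1))
    rw [mul_sub (m ^ (α + 1)), ← mul_rpow hm0 p1, ← mul_rpow hm0 p2, ← e1, ← e2, rpow_add_one h.ne'] at k2
    refine le_of_eq_of_le ?_ k2
    have e3 : a - x = (1 + γ) * (m - x) := by linarith
    rw [e3]; field_simp

end Pool.Agent.MP_515557_an.H14
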