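import Pool.Agent.MP_515557_an.H14.Fam
import Pool.Agent.MP_515557_an.H14.BAPoly
import Pool.Agent.MP_515557_an.H14.Maj

/-! The bound `p - 1 + (p - 2) / 10` for the Beurling-Ahlfors transform. -/

set_option autoImplicit false

open MeasureTheory Set Real Filter Topology

namespace Pool.Agent.MP_515557_an.H14.BA

open Pool.Agent.MP_515557_an.H11

noncomputable def la (α : ℝ) : ℝ := (11 + 36 * α) / 20
noncomputable def mu (α : ℝ) : ℝ := ((5 + 11 * α) / 5) ^ 2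

noncomputable def QQ (α ρ s A u v : ℝ) : ℝ :=
  QP 0 α (la α) (-(1 + α)) ((1 + α) * mu α) (ρ ^ 2 + la α * s ^ 2)
    (-(1 + α) * ρ ^ 2 + (1 + α) * mu α * s ^ 2)
    (α * (3 + 5 * α) * ρ ^ 2 + 2 * α * mu α * (1 + α) * s ^ 2) (α * (3 + 5 * α))
    (2 * α * mu α * (1 + α)) (0 * ρ ^ 2 + 2 * α * mu α * (1 + α) * la α * s ^ 2) 0
    (2 * α * mu α * (1 + α) * la α) ρ s A u v

theorem QQ_eq (α ρ s A u v : ℝ) : QQ α ρ s A u v = α / 10000 *
    (eM11.ev (env4 ρ s 1 α) * A ^ 2 + 2 * eM12.ev (env4 ρ s 1 α) * A * u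
      + 2 * eM13.ev (env4 ρ s 1 α) * A * (s * v) + eM22.ev (env4 ρ s 1 α) * u ^ 2
      + 2 * eM23.ev (env4 ρ s 1 α) * u * (s * v) + eM33.ev (env4 ρ s 1 α) * (s * v) ^ 2) := by
  simp only [QQ, QP, QF, la, mu, eM11, eM12, eM13, eM22, eM23, eM33, ehb, eg2, eP, ef1, ef2, evv,
    eL, eu, eb, eam, eqq, emu, eK, elam, eh2, ex, ey, Ex.ev, env4]
  push_cast
  ring

theorem QQ_neg (α ρ s A u v : ℝ) : QQ α (-ρ) (-s) A u v = QQ α ρ s A u v := by
  simp only [QQ, QP, QF, neg_sq]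
  ring

theorem QQ_nonneg' {α ρ : ℝ} (hα : 0 ≤ α) (hρ : 0 ≤ ρ) (s A u v : ℝ)
    (hb : 0 < ρ ^ 2 + la α * s ^ 2) : 0 ≤ QQ α ρ s A u v := by
  rw [QQ_eq]
  refine mul_nonneg (by positivity) (psd3 ?_ ?_ ?_ _ _ _)
  · have e : eM33.ev (env4 ρ s 1 α) = 4 * (5 + 11 * α) ^ 2 * (1 + α) * (11 + 36 * α)
        * (20 * (ρ ^ 2 + la α * s ^ 2) + (20 * ρ ^ 2 + α * (11 + 36 * α) * s ^ 2)) := by
      simp only [la, eM33, ehb, eg2, ef2, eb, eam, eqq, emu, eK, elam, ex, ey, Ex.ev, env4]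
      push_cast
      ring
    rw [e]
    positivity
  · have h := nnN s hρ hα
    have e : eN.ev (env4 ρ s 1 α) = eM22.ev (env4 ρ s 1 α) * eM33.ev (env4 ρ s 1 α)
        - eM23.ev (env4 ρ s 1 α) ^ 2 - ((ρ ^ 2) ^ 3 + (s ^ 2) ^ 3) := by
      simp only [eN, eS, eh2, ex, ey, Ex.ev, env4]
      push_cast
      ring
    have h2 : 0 < (ρ ^ 2) ^ 3 + (s ^ 2) ^ 3 := by
      rcases (sq_nonneg ρ).eq_or_lt with h1 | h1
      · rcases (sq_nonneg s).eq_or_lt with h3 | h3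
        · rw [← h1, ← h3] at hb; simp at hb
        · positivity
      · positivity
    linarith
  · have h := nnD s hρ hα
    rwa [eD, Ex.ev_det] at h

theorem QQ_nonneg {α : ℝ} (hα : 0 ≤ α) (ρ s A u v : ℝ)
    (hb : 0 < ρ ^ 2 + la α * s ^ 2) : 0 ≤ QQ α ρ s A u v := by
  rcases le_total 0 ρ with h | h
  · exact QQ_nonneg' hα h s A u v hb
  · rw [← QQ_neg]
    exact QQ_nonneg' hα (neg_nonneg.2 h) _ A u v (by rwa [neg_sq, neg_sq])

theorem qc_W {α : ℝ} (hα : 0 ≤ α) : QC fun F : E =>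
    (sz F F + la α * sw F F) ^ α * (-(1 + α) * sz F F + (1 + α) * mu α * sw F F) :=
  (fam_tqc 0 (by unfold la; positivity) (cont_fam _ _ hα)
    (Pl.lin (α * (3 + 5 * α)) (2 * α * mu α * (1 + α))) (Pl.lin 0 (2 * α * mu α * (1 + α) * la α))
    fun ρ s A u v hb => QQ_nonneg hα ρ s A u v hb).qc (cont_fam _ _ hα)

theorem major {α : ℝ} (hα : 0 ≤ α) : ∃ c : ℝ, 0 ≤ c ∧ ∀ x y : ℝ, 0 ≤ x → 0 ≤ y →
    c * ((x + la α * y) ^ α * (-(1 + α) * x + (1 + α) * mu α * y))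
      ≤ mu α ^ (α + 1) * y ^ (α + 1) - x ^ (α + 1) := by
  have hl : 0 < la α := by unfold la; positivity
  have hm : 0 < mu α := by unfold mu; positivity
  set γ := mu α / la α with hγ
  have g1 : 9 / 5 ≤ γ := by
    rw [hγ, le_div_iff₀ hl]; unfold la mu; nlinarith [sq_nonneg α]
  have g2 : 2 * α ≤ γ := by
    rw [hγ, le_div_iff₀ hl]; unfold la mu; nlinarith [sq_nonneg α]
  have g0 : 0 < γ := by linarith
  refine ⟨(γ / (1 + γ)) ^ α, by positivity, fun x y hx hy => ?_⟩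
  have k := maj hα (by linarith : 1 ≤ γ) (fun _ => ?_) (fun h1 => ?_) (mul_nonneg hm.le hy) hx
  · have e : (mu α * y + γ * x) / (1 + γ) = γ / (1 + γ) * (x + la α * y) := by
      have : mu α = γ * la α := by rw [hγ]; field_simp
      rw [this]; field_simp; ring
    rw [e, mul_rpow (by positivity) (by positivity), mul_rpow hm.le hy] at k
    linarith
  · have h1 : exp 1 ≤ 1 + γ := by linarith [exp_one_lt_d9]
    have h2 := rpow_le_rpow (exp_pos 1).le h1 hα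
    rw [exp_one_rpow] at h2
    exact (add_one_le_exp α).trans h2
  · have h2 : 1 + γ⁻¹ ≤ exp γ⁻¹ := by linarith [add_one_le_exp γ⁻¹]
    have h3 := rpow_le_rpow (by positivity) h2 hα
    rw [← exp_mul] at h3
    have h4 : γ⁻¹ * α ≤ 1 / 2 := by
      rw [inv_mul_le_iff₀ g0]; linarith
    have h5 : exp (1 / 2) ≤ 2 := by
      have h6 : exp (1 / 2) * exp (1 / 2) = exp 1 := by rw [← exp_add]; norm_num
      nlinarith [exp_one_lt_d9, exp_pos (1 / 2 : ℝ)]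
    linarith [exp_le_exp.2 h4]

theorem ba_main (p : ℝ) (hp : 2 ≤ p) (Ω : Set V) (hΩ : IsOpen Ω) (hb : Bornology.IsBounded Ω)
    (ϑ : V → V) (hL : ∃ L, LipschitzWith L ϑ) (h0 : ∀ x, x ∉ Ω → ϑ x = 0) :
    ∫ x in Ω, √(sz (jac ϑ x) (jac ϑ x)) ^ p
      ≤ (p - 1 + (p - 2) / 10) ^ p * ∫ x in Ω, √(sw (jac ϑ x) (jac ϑ x)) ^ p := by
  obtain ⟨α, rfl⟩ : ∃ α, p = 2 * (α + 1) := ⟨p / 2 - 1, by ring⟩
  have hα : 0 ≤ α := by linarith
  have q := qc_W hα 0 Ω hΩ hb ϑ hL h0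
  obtain ⟨L, hL⟩ := hL
  obtain ⟨c, hc, hmaj⟩ := major hα
  have z0 : sz 0 0 = 0 := by simp [sz, z1, z2]
  have w0 : sw 0 0 = 0 := by simp [sw, w1, w2]
  simp only [z0, w0, mul_zero, add_zero, zero_mul] at q
  have nz : ∀ F : E, 0 ≤ sz F F := fun F => add_nonneg (mul_self_nonneg _) (mul_self_nonneg _)
  have nw : ∀ F : E, 0 ≤ sw F F := fun F => add_nonneg (mul_self_nonneg _) (mul_self_nonneg _)
  have e1 : ∀ x : ℝ, 0 ≤ x → √x ^ (2 * (α + 1)) = x ^ (α + 1) := fun x hx => by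
    rw [rpow_mul (sqrt_nonneg x), rpow_two, sq_sqrt hx]
  have e2 : (2 * (α + 1) - 1 + (2 * (α + 1) - 2) / 10) ^ (2 * (α + 1)) = mu α ^ (α + 1) := by
    rw [rpow_mul (by linarith), rpow_two]; unfold mu; congr 1; ring
  simp only [e1 _ (nz _), e1 _ (nw _), e2]
  have fin : volume Ω ≠ ⊤ := hb.measure_lt_top.ne
  have cz : Continuous fun F : E => sz F F ^ (α + 1) :=
    (by unfold sz z1 z2; fun_prop : Continuous fun F : E => sz F F).rpow_const fun _ =>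
      Or.inr (by linarith)
  have cw : Continuous fun F : E => sw F F ^ (α + 1) :=
    (by unfold sw w1 w2; fun_prop : Continuous fun F : E => sw F F).rpow_const fun _ =>
      Or.inr (by linarith)
  have i1 := integrableOn_W cz 0 (measurable_jac ϑ) (norm_jac_le hL) fin
  have i2 := integrableOn_W cw 0 (measurable_jac ϑ) (norm_jac_le hL) fin
  have i3 := integrableOn_W (cont_fam (l := la α) (-(1 + α)) ((1 + α) * mu α) hα) 0
    (measurable_jac ϑ) (norm_jac_le hL) fin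
  simp only [zero_add] at i1 i2 i3 q
  have h1 := integral_mono (i3.const_mul c) ((i2.const_mul (mu α ^ (α + 1))).sub i1)
    fun x => hmaj _ _ (nz _) (nw _)
  rw [integral_const_mul] at h1
  have h2 := integral_sub (i2.const_mul (mu α ^ (α + 1))) i1
  rw [integral_const_mul] at h2
  have h3 := mul_nonneg hc q
  simp only [Pi.sub_apply] at h1
  linarith

end Pool.Agent.MP_515557_an.H14.BA
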