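import Pool.Agent.MP_515557_an.H14.Heat0

/-! The heat flow criterion for isotropic integrands as a three by three matrix inequality. -/

set_option autoImplicit false

open MeasureTheory Set Real Filter Topology

namespace Pool.Agent.MP_515557_an.H14

open Pool.Agent.MP_515557_an.H11

/-- `g` has the continuous first derivatives `gx`, `gy` on the half plane `0 < x + l y`. -/
structure Sm (l : ℝ) (g gx gy : ℝ → ℝ → ℝ) : Prop where
  c : ContinuousOn (fun p : ℝ × ℝ => g p.1 p.2) {p | 0 < p.1 + l * p.2}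
  cx : ContinuousOn (fun p : ℝ × ℝ => gx p.1 p.2) {p | 0 < p.1 + l * p.2}
  cy : ContinuousOn (fun p : ℝ × ℝ => gy p.1 p.2) {p | 0 < p.1 + l * p.2}
  d : ∀ (X Y : ℝ → ℝ) (X' Y' t : ℝ), 0 < X t + l * Y t → HasDerivAt X X' t → HasDerivAt Y Y' t →
    HasDerivAt (fun s => g (X s) (Y s)) (gx (X t) (Y t) * X' + gy (X t) (Y t) * Y') t

/-- The quadratic form of the criterion. -/
def QF (wx wy wxx wxy wyy f fx fy g gx gy ρ s A a b : ℝ) : ℝ :=
  (2 * wx + 2 * wy + 4 * (ρ ^ 2 * wxx + 2 * ρ * s * wxy + s ^ 2 * wyy)) * A ^ 2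
    + 2 * (f + ρ * (ρ * fx + s * fy) + 2 * ρ * (ρ * wxx + s * wxy)) * A * a
    + 2 * (g + s * (ρ * gx + s * gy) + 2 * s * (ρ * wxy + s * wyy)) * A * b
    + (2 * f + 2 * ρ ^ 2 * fx) * a ^ 2 + 2 * (ρ * s * (fy + gx)) * a * b
    + (2 * g + 2 * s ^ 2 * gy) * b ^ 2

theorem pos_of_ne {l : ℝ} (hl : 0 < l) {F : E} (hF : F ≠ 0) : 0 < sz F F + l * sw F F := by
  by_contra hc
  push Not at hc
  have h1 : 0 ≤ sz F F := add_nonneg (mul_self_nonneg _) (mul_self_nonneg _)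
  have h2 : 0 ≤ sw F F := add_nonneg (mul_self_nonneg _) (mul_self_nonneg _)
  have h3 : sz F F = 0 := by nlinarith [mul_nonneg hl.le h2]
  have h4 : sw F F = 0 := by
    by_contra h
    have := mul_pos hl (lt_of_le_of_ne h2 (Ne.symm h))
    linarith
  simp only [sz, sw] at h3 h4
  have a1 : z1 F = 0 := by nlinarith [mul_self_nonneg (z1 F), mul_self_nonneg (z2 F)]
  have a2 : z2 F = 0 := by nlinarith [mul_self_nonneg (z1 F), mul_self_nonneg (z2 F)]
  have a3 : w1 F = 0 := by nlinarith [mul_self_nonneg (w1 F), mul_self_nonneg (w2 F)]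
  have a4 : w2 F = 0 := by nlinarith [mul_self_nonneg (w1 F), mul_self_nonneg (w2 F)]
  simp only [z1, z2, w1, w2] at a1 a2 a3 a4
  apply hF
  ext i j
  fin_cases i <;> fin_cases j <;> simp <;> linarith

theorem exists_angles (a1 a2 b1 b2 : ℝ) : ∃ ρ s c d u v : ℝ, c ^ 2 + d ^ 2 = 1 ∧ u ^ 2 + v ^ 2 = 1 ∧
    a1 = ρ * (c * u - d * v) ∧ a2 = ρ * (d * u + c * v) ∧
    b1 = s * (c * u + d * v) ∧ b2 = s * (d * u - c * v) := by
  set Z : ℂ := ⟨a1, a2⟩ with hZ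
  set U : ℂ := ⟨b1, b2⟩ with hU
  have h1 : ‖Z‖ * cos Z.arg = a1 := Complex.norm_mul_cos_arg Z
  have h2 : ‖Z‖ * sin Z.arg = a2 := Complex.norm_mul_sin_arg Z
  have h3 : ‖U‖ * cos U.arg = b1 := Complex.norm_mul_cos_arg U
  have h4 : ‖U‖ * sin U.arg = b2 := Complex.norm_mul_sin_arg U
  set a := (Z.arg + U.arg) / 2 with ha
  set b := (Z.arg - U.arg) / 2 with hb
  have e1 : Z.arg = a + b := by rw [ha, hb]; ring
  have e2 : U.arg = a - b := by rw [ha, hb]; ring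
  refine ⟨‖Z‖, ‖U‖, cos a, sin a, cos b, sin b, cos_sq_add_sin_sq a, cos_sq_add_sin_sq b,
    ?_, ?_, ?_, ?_⟩
  · rw [← cos_add, ← e1, h1]
  · rw [← sin_add, ← e1, h2]
  · rw [← cos_sub, ← e2, h3]
  · rw [← sin_sub, ← e2, h4]

theorem exists_rot (c d p1 p2 : ℝ) (h : c ^ 2 + d ^ 2 = 1) :
    ∃ q1 q2 : ℝ, p1 = c * q1 - d * q2 ∧ p2 = d * q1 + c * q2 :=
  ⟨c * p1 + d * p2, c * p2 - d * p1, by linear_combination (-p1) * h,
    by linear_combination (-p2) * h⟩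

theorem total_eq (wx wy wxx wxy wyy f fx fy g gx gy : ℝ) (F X Y : E) (h : ∀ r, X r 1 = Y r 0) :
    ∃ ρ s A a b A' a' b' : ℝ, sz F F = ρ ^ 2 ∧ sw F F = s ^ 2 ∧
      ((wxx * (2 * sz F X) + wxy * (2 * sw F X)) * (2 * sz F X) + wx * (2 * sz X X)
        + ((wxy * (2 * sz F X) + wyy * (2 * sw F X)) * (2 * sw F X) + wy * (2 * sw X X)))
      + ((wxx * (2 * sz F Y) + wxy * (2 * sw F Y)) * (2 * sz F Y) + wx * (2 * sz Y Y)
        + ((wxy * (2 * sz F Y) + wyy * (2 * sw F Y)) * (2 * sw F Y) + wy * (2 * sw Y Y)))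
      + (((fx - 2 * wxx) * (2 * sz F X) + (fy - 2 * wxy) * (2 * sw F X)) * iz F Y
          + (f - 2 * wx) * iz X Y
        + (((2 * wxy - gx) * (2 * sz F X) + (2 * wyy - gy) * (2 * sw F X)) * iw F Y
          + (2 * wy - g) * iw X Y))
      - (((fx - 2 * wxx) * (2 * sz F Y) + (fy - 2 * wxy) * (2 * sw F Y)) * iz F X
          + (f - 2 * wx) * iz Y X
        + (((2 * wxy - gx) * (2 * sz F Y) + (2 * wyy - gy) * (2 * sw F Y)) * iw F X
          + (2 * wy - g) * iw Y X))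
      = 4 * (QF wx wy wxx wxy wyy f fx fy g gx gy ρ s A a b
        + QF wx wy wxx wxy wyy f fx fy g gx gy ρ (-s) A' a' b') := by
  obtain ⟨P1, P2, Q1, Q2, R1, R2, e1, e2, e3, e4, e5, e6, e7, e8⟩ := exists_PQR X Y h
  obtain ⟨ρ, s, c, d, u, v, h1, h2, f1, f2, f3, f4⟩ := exists_angles (z1 F) (z2 F) (w1 F) (w2 F)
  obtain ⟨P3, P4, rfl, rfl⟩ := exists_rot c d P1 P2 h1
  obtain ⟨Q3, Q4, rfl, rfl⟩ := exists_rot c d Q1 Q2 h1
  obtain ⟨R3, R4, rfl, rfl⟩ := exists_rot c d R1 R2 h1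
  obtain ⟨P5, P6, rfl, rfl⟩ := exists_rot u v P3 P4 h2
  obtain ⟨R5, R6, rfl, rfl⟩ := exists_rot u (-v) R3 R4 (by linear_combination h2)
  obtain ⟨p1, p2, hp1, hp2⟩ := exists_rot u v P5 P6 h2
  obtain ⟨r1, r2, hr1, hr2⟩ := exists_rot u (-v) R5 R6 (by linear_combination h2)
  have zX : sz F X = ρ * (P5 + (u * Q3 + v * Q4)) := by
    simp only [sz, e1, e2, f1, f2]
    linear_combination ρ * ((u ^ 2 + v ^ 2) * P5 + (u * Q3 + v * Q4)) * h1 + ρ * P5 * h2
  have iX : iz F X = ρ * (P6 + (u * Q4 - v * Q3)) := by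
    simp only [iz, e1, e2, f1, f2]
    linear_combination ρ * ((u ^ 2 + v ^ 2) * P6 + (u * Q4 - v * Q3)) * h1 + ρ * P6 * h2
  have zY : sz F Y = ρ * (-P6 + (u * Q4 - v * Q3)) := by
    simp only [sz, e3, e4, f1, f2]
    linear_combination ρ * (-(u ^ 2 + v ^ 2) * P6 + (u * Q4 - v * Q3)) * h1 - ρ * P6 * h2
  have iY : iz F Y = ρ * (P5 - (u * Q3 + v * Q4)) := by
    simp only [iz, e3, e4, f1, f2]
    linear_combination ρ * ((u ^ 2 + v ^ 2) * P5 - (u * Q3 + v * Q4)) * h1 + ρ * P5 * h2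
  have wX : sw F X = s * ((u * Q3 - v * Q4) + R5) := by
    simp only [sw, e5, e6, f3, f4]
    linear_combination s * ((u ^ 2 + v ^ 2) * R5 + (u * Q3 - v * Q4)) * h1 + s * R5 * h2
  have jX : iw F X = s * ((u * Q4 + v * Q3) + R6) := by
    simp only [iw, e5, e6, f3, f4]
    linear_combination s * ((u ^ 2 + v ^ 2) * R6 + (u * Q4 + v * Q3)) * h1 + s * R6 * h2
  have wY : sw F Y = s * (R6 - (u * Q4 + v * Q3)) := by
    simp only [sw, e7, e8, f3, f4]
    linear_combination s * ((u ^ 2 + v ^ 2) * R6 - (u * Q4 + v * Q3)) * h1 + s * R6 * h2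
  have jY : iw F Y = s * ((u * Q3 - v * Q4) - R5) := by
    simp only [iw, e7, e8, f3, f4]
    linear_combination s * (-(u ^ 2 + v ^ 2) * R5 + (u * Q3 - v * Q4)) * h1 - s * R5 * h2
  have nP : P5 ^ 2 + P6 ^ 2 = p1 ^ 2 + p2 ^ 2 := by
    rw [hp1, hp2]; linear_combination (p1 ^ 2 + p2 ^ 2) * h2
  have nR : R5 ^ 2 + R6 ^ 2 = r1 ^ 2 + r2 ^ 2 := by
    rw [hr1, hr2]; linear_combination (r1 ^ 2 + r2 ^ 2) * h2
  have zz : sz X X + sz Y Y = 2 * (p1 ^ 2 + p2 ^ 2 + (Q3 ^ 2 + Q4 ^ 2)) := by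
    simp only [sz, e1, e2, e3, e4, ← nP]
    linear_combination 2 * ((u ^ 2 + v ^ 2) * (P5 ^ 2 + P6 ^ 2) + (Q3 ^ 2 + Q4 ^ 2)) * h1
      + 2 * (P5 ^ 2 + P6 ^ 2) * h2
  have ww : sw X X + sw Y Y = 2 * (r1 ^ 2 + r2 ^ 2 + (Q3 ^ 2 + Q4 ^ 2)) := by
    simp only [sw, e5, e6, e7, e8, ← nR]
    linear_combination 2 * ((u ^ 2 + v ^ 2) * (R5 ^ 2 + R6 ^ 2) + (Q3 ^ 2 + Q4 ^ 2)) * h1
      + 2 * (R5 ^ 2 + R6 ^ 2) * h2
  have ii : iz X Y - iz Y X = 2 * (p1 ^ 2 + p2 ^ 2 - (Q3 ^ 2 + Q4 ^ 2)) := by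
    simp only [iz, e1, e2, e3, e4, ← nP]
    linear_combination 2 * ((u ^ 2 + v ^ 2) * (P5 ^ 2 + P6 ^ 2) - (Q3 ^ 2 + Q4 ^ 2)) * h1
      + 2 * (P5 ^ 2 + P6 ^ 2) * h2
  have jj : iw X Y - iw Y X = 2 * ((Q3 ^ 2 + Q4 ^ 2) - (r1 ^ 2 + r2 ^ 2)) := by
    simp only [iw, e5, e6, e7, e8, ← nR]
    linear_combination 2 * (-(u ^ 2 + v ^ 2) * (R5 ^ 2 + R6 ^ 2) + (Q3 ^ 2 + Q4 ^ 2)) * h1
      - 2 * (R5 ^ 2 + R6 ^ 2) * h2
  refine ⟨ρ, s, Q3, (p1 - Q3) / 2, (r1 - Q3) / 2, -Q4, (p2 + Q4) / 2, (r2 + Q4) / 2, ?_, ?_, ?_⟩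
  · simp only [sz, f1, f2]
    linear_combination ρ ^ 2 * (u ^ 2 + v ^ 2) * h1 + ρ ^ 2 * h2
  · simp only [sw, f3, f4]
    linear_combination s ^ 2 * (u ^ 2 + v ^ 2) * h1 + s ^ 2 * h2
  · rw [zX, iX, zY, iY, wX, jX, wY, jY, hp1, hp2, hr1, hr2]
    simp only [QF]
    linear_combination 2 * wx * zz + 2 * wy * ww + (f - 2 * wx) * ii + (2 * wy - g) * jj
      + (4 * wxx * ρ ^ 2 * ((p1 + Q3) ^ 2 + (p2 - Q4) ^ 2)
        + 8 * wxy * ρ * s * ((p1 + Q3) * (Q3 + r1) + (p2 - Q4) * (Q4 - r2))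
        + 4 * wyy * s ^ 2 * ((Q3 + r1) ^ 2 + (Q4 - r2) ^ 2)
        + 2 * (fx - 2 * wxx) * ρ ^ 2 * ((p1 + Q3) * (p1 - Q3) + (p2 - Q4) * (p2 + Q4))
        + 2 * (fy - 2 * wxy) * ρ * s * ((Q3 + r1) * (p1 - Q3) + (Q4 - r2) * (p2 + Q4))
        + 2 * (2 * wxy - gx) * ρ * s * ((p1 + Q3) * (Q3 - r1) + (p2 - Q4) * (Q4 + r2))
        + 2 * (2 * wyy - gy) * s ^ 2 * ((Q3 + r1) * (Q3 - r1) + (Q4 - r2) * (Q4 + r2))) * h2

theorem Sm.comp2 {l : ℝ} (hl : 0 < l) {g : ℝ → ℝ → ℝ}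
    (h : ContinuousOn (fun p : ℝ × ℝ => g p.1 p.2) {p | 0 < p.1 + l * p.2})
    {T : Type} [TopologicalSpace T] {F : T → E} (hF : Continuous F) :
    ContinuousOn (fun p : T => g (sz (F p) (F p)) (sw (F p) (F p))) {p | F p ≠ 0} := by
  have c : Continuous fun p : T => (sz (F p) (F p), sw (F p) (F p)) := by
    unfold sz sw z1 z2 w1 w2; fun_prop
  exact h.comp c.continuousOn fun p hp => pos_of_ne hl hp

theorem iso_tqc {l : ℝ} (hl : 0 < l) {w wx wy wxx wxy wyy f fx fy g gx gy : ℝ → ℝ → ℝ}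
    (cw : Continuous fun F : E => w (sz F F) (sw F F))
    (h0 : Sm l w wx wy) (h1 : Sm l wx wxx wxy) (h2 : Sm l wy wxy wyy)
    (hf : Sm l f fx fy) (hg : Sm l g gx gy)
    (hq : ∀ ρ s A a b : ℝ, 0 < ρ ^ 2 + l * s ^ 2 →
      0 ≤ QF (wx (ρ ^ 2) (s ^ 2)) (wy (ρ ^ 2) (s ^ 2)) (wxx (ρ ^ 2) (s ^ 2)) (wxy (ρ ^ 2) (s ^ 2))
        (wyy (ρ ^ 2) (s ^ 2)) (f (ρ ^ 2) (s ^ 2)) (fx (ρ ^ 2) (s ^ 2)) (fy (ρ ^ 2) (s ^ 2))
        (g (ρ ^ 2) (s ^ 2)) (gx (ρ ^ 2) (s ^ 2)) (gy (ρ ^ 2) (s ^ 2)) ρ s A a b) :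
    TQC fun F : E => w (sz F F) (sw F F) := by
  refine Cert0.tqc
    (P := fun F X => wx (sz F F) (sw F F) * (2 * sz F X) + wy (sz F F) (sw F F) * (2 * sw F X))
    (H := fun F Y X =>
      (wxx (sz F F) (sw F F) * (2 * sz F Y) + wxy (sz F F) (sw F F) * (2 * sw F Y)) * (2 * sz F X)
        + wx (sz F F) (sw F F) * (2 * sz Y X)
        + ((wxy (sz F F) (sw F F) * (2 * sz F Y) + wyy (sz F F) (sw F F) * (2 * sw F Y))
          * (2 * sw F X) + wy (sz F F) (sw F F) * (2 * sw Y X)))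
    (Θ := fun F X => (f (sz F F) (sw F F) - 2 * wx (sz F F) (sw F F)) * iz F X
      + (2 * wy (sz F F) (sw F F) - g (sz F F) (sw F F)) * iw F X)
    (K := fun F Y X =>
      ((fx (sz F F) (sw F F) - 2 * wxx (sz F F) (sw F F)) * (2 * sz F Y)
        + (fy (sz F F) (sw F F) - 2 * wxy (sz F F) (sw F F)) * (2 * sw F Y)) * iz F X
        + (f (sz F F) (sw F F) - 2 * wx (sz F F) (sw F F)) * iz Y X
        + (((2 * wxy (sz F F) (sw F F) - gx (sz F F) (sw F F)) * (2 * sz F Y)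
          + (2 * wyy (sz F F) (sw F F) - gy (sz F F) (sw F F)) * (2 * sw F Y)) * iw F X
          + (2 * wy (sz F F) (sw F F) - g (sz F F) (sw F F)) * iw Y X))
    ⟨cw, ?_, ?_, ?_, ?_, ?_, ?_, ?_, ?_, ?_⟩
  · have a1 := Sm.comp2 hl h0.cx (T := E × E) continuous_fst
    have a2 := Sm.comp2 hl h0.cy (T := E × E) continuous_fst
    have b1 : Continuous fun p : E × E => sz p.1 p.2 := by unfold sz z1 z2; fun_prop
    have b2 : Continuous fun p : E × E => sw p.1 p.2 := by unfold sw w1 w2; fun_prop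
    exact (a1.mul (continuousOn_const.mul b1.continuousOn)).add (a2.mul (continuousOn_const.mul b2.continuousOn))
  · have a1 := Sm.comp2 hl h0.cx (T := E × E × E) continuous_fst
    have a2 := Sm.comp2 hl h0.cy (T := E × E × E) continuous_fst
    have a3 := Sm.comp2 hl h1.cx (T := E × E × E) continuous_fst
    have a4 := Sm.comp2 hl h1.cy (T := E × E × E) continuous_fst
    have a5 := Sm.comp2 hl h2.cy (T := E × E × E) continuous_fst
    have b1 : Continuous fun p : E × E × E => sz p.1 p.2.1 := by unfold sz z1 z2; fun_prop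
    have b2 : Continuous fun p : E × E × E => sw p.1 p.2.1 := by unfold sw w1 w2; fun_prop
    have b3 : Continuous fun p : E × E × E => sz p.1 p.2.2 := by unfold sz z1 z2; fun_prop
    have b4 : Continuous fun p : E × E × E => sw p.1 p.2.2 := by unfold sw w1 w2; fun_prop
    have b5 : Continuous fun p : E × E × E => sz p.2.1 p.2.2 := by unfold sz z1 z2; fun_prop
    have b6 : Continuous fun p : E × E × E => sw p.2.1 p.2.2 := by unfold sw w1 w2; fun_prop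
    exact ((((a3.mul (continuousOn_const.mul b1.continuousOn)).add (a4.mul (continuousOn_const.mul b2.continuousOn))).mul
      (continuousOn_const.mul b3.continuousOn)).add (a1.mul (continuousOn_const.mul b5.continuousOn))).add
      ((((a4.mul (continuousOn_const.mul b1.continuousOn)).add (a5.mul (continuousOn_const.mul b2.continuousOn))).mul
      (continuousOn_const.mul b4.continuousOn)).add (a2.mul (continuousOn_const.mul b6.continuousOn)))
  · have a1 := Sm.comp2 hl h0.cx (T := E × E) continuous_fst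
    have a2 := Sm.comp2 hl h0.cy (T := E × E) continuous_fst
    have a3 := Sm.comp2 hl hf.c (T := E × E) continuous_fst
    have a4 := Sm.comp2 hl hg.c (T := E × E) continuous_fst
    have b1 : Continuous fun p : E × E => iz p.1 p.2 := by unfold iz z1 z2; fun_prop
    have b2 : Continuous fun p : E × E => iw p.1 p.2 := by unfold iw w1 w2; fun_prop
    exact ((a3.sub (continuousOn_const.mul a1)).mul b1.continuousOn).add
      (((continuousOn_const.mul a2).sub a4).mul b2.continuousOn)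
  · have a1 := Sm.comp2 hl h0.cx (T := E × E × E) continuous_fst
    have a2 := Sm.comp2 hl h0.cy (T := E × E × E) continuous_fst
    have a3 := Sm.comp2 hl h1.cx (T := E × E × E) continuous_fst
    have a4 := Sm.comp2 hl h1.cy (T := E × E × E) continuous_fst
    have a5 := Sm.comp2 hl h2.cy (T := E × E × E) continuous_fst
    have a6 := Sm.comp2 hl hf.c (T := E × E × E) continuous_fst
    have a7 := Sm.comp2 hl hf.cx (T := E × E × E) continuous_fst
    have a8 := Sm.comp2 hl hf.cy (T := E × E × E) continuous_fst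
    have a9 := Sm.comp2 hl hg.c (T := E × E × E) continuous_fst
    have a10 := Sm.comp2 hl hg.cx (T := E × E × E) continuous_fst
    have a11 := Sm.comp2 hl hg.cy (T := E × E × E) continuous_fst
    have b1 : Continuous fun p : E × E × E => sz p.1 p.2.1 := by unfold sz z1 z2; fun_prop
    have b2 : Continuous fun p : E × E × E => sw p.1 p.2.1 := by unfold sw w1 w2; fun_prop
    have b3 : Continuous fun p : E × E × E => iz p.1 p.2.2 := by unfold iz z1 z2; fun_prop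
    have b4 : Continuous fun p : E × E × E => iw p.1 p.2.2 := by unfold iw w1 w2; fun_prop
    have b5 : Continuous fun p : E × E × E => iz p.2.1 p.2.2 := by unfold iz z1 z2; fun_prop
    have b6 : Continuous fun p : E × E × E => iw p.2.1 p.2.2 := by unfold iw w1 w2; fun_prop
    exact (((((a7.sub (continuousOn_const.mul a3)).mul (continuousOn_const.mul b1.continuousOn)).add
      ((a8.sub (continuousOn_const.mul a4)).mul (continuousOn_const.mul b2.continuousOn))).mul b3.continuousOn).add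
      ((a6.sub (continuousOn_const.mul a1)).mul b5.continuousOn)).add
      ((((((continuousOn_const.mul a4).sub a10).mul (continuousOn_const.mul b1.continuousOn)).add
      (((continuousOn_const.mul a5).sub a11).mul (continuousOn_const.mul b2.continuousOn))).mul b4.continuousOn).add
      (((continuousOn_const.mul a2).sub a9).mul b6.continuousOn))
  · intro γ γ' t hne h
    exact h0.d _ _ _ _ t (pos_of_ne hl hne) (d_S h) (d_T h)
  · intro γ η γ' η' t hne h k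
    have a1 := h1.d _ _ _ _ t (pos_of_ne hl hne) (d_S h) (d_T h)
    have a2 := h2.d _ _ _ _ t (pos_of_ne hl hne) (d_S h) (d_T h)
    refine ((a1.fun_mul ((d_sz h k).const_mul 2)).fun_add
      (a2.fun_mul ((d_sw h k).const_mul 2))).congr_deriv ?_
    ring
  · intro γ η γ' η' t hne h k
    have a1 := h1.d _ _ _ _ t (pos_of_ne hl hne) (d_S h) (d_T h)
    have a2 := h2.d _ _ _ _ t (pos_of_ne hl hne) (d_S h) (d_T h)
    have a3 := hf.d _ _ _ _ t (pos_of_ne hl hne) (d_S h) (d_T h)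
    have a4 := hg.d _ _ _ _ t (pos_of_ne hl hne) (d_S h) (d_T h)
    refine (((a3.fun_sub (a1.const_mul 2)).fun_mul (d_iz h k)).fun_add
      (((a2.const_mul 2).fun_sub a4).fun_mul (d_iw h k))).congr_deriv ?_
    ring
  · intro F X Y
    simp only [sz, sw, z1, z2, w1, w2, Pi.add_apply]; ring
  · intro F X Y hne h
    obtain ⟨ρ, s, A, a, b, A', a', b', e1, e2, e3⟩ := total_eq (wx (sz F F) (sw F F))
      (wy (sz F F) (sw F F)) (wxx (sz F F) (sw F F)) (wxy (sz F F) (sw F F))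
      (wyy (sz F F) (sw F F)) (f (sz F F) (sw F F)) (fx (sz F F) (sw F F)) (fy (sz F F) (sw F F))
      (g (sz F F) (sw F F)) (gx (sz F F) (sw F F)) (gy (sz F F) (sw F F)) F X Y h
    have hp := pos_of_ne hl hne
    rw [e1, e2] at hp
    have q1 := hq ρ s A a b hp
    have q2 := hq ρ (-s) A' a' b' (by rwa [neg_sq])
    rw [neg_sq] at q2
    rw [← e1, ← e2] at q1 q2
    linarith

end Pool.Agent.MP_515557_an.H14
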