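import Pool.Agent.MP_515557_an.H14.Kron

/-! The polynomial inequalities for the family `|F| ^ (2 a) (|F| ^ 2 - g det F)`. -/

set_option autoImplicit false

namespace Pool.Agent.MP_515557_an.H14.DD

def pu0 : Ex := .m (.m (.m (.m (.m (.v 0) (.v 0)) (.v 0)) (.v 0)) (.v 0)) (.v 0)
def ph2 : Ex := .m (.v 2) (.v 2)
def eD : Ex := .a (.m (.m (.c 1) (.v 3)) (.v 3)) (.m (.c 3) ph2)
def pr0 : Ex := .m (.m eD eD) eD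
def ad : Ex := .m (.m (.c 2) (.v 2)) eD
def ph3 : Ex := .m (.v 2) ph2
def ph4 : Ex := .m (.v 2) ph3
def ph5 : Ex := .m (.v 2) ph4
def ph6 : Ex := .m (.v 2) ph5
def ph7 : Ex := .m (.v 2) ph6
def eZ : Ex := .m (.a (.m (.a (.m (.a (.m (.a (.m (.a (.m (.a (.m (.a (.m (.c (-90)) (.v 3)) (.m (.c (-810)) (.v 2))) (.v 3)) (.m (.c 1710) ph2)) (.v 3)) (.m (.c 30510) ph3)) (.v 3)) (.m (.c 90450) ph4)) (.v 3)) (.m (.c 101250) ph5)) (.v 3)) (.m (.c 46170) ph6)) (.v 3)) (.m (.c 7290) ph7)) ph5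
def an : Ex := .a (.m (.a (.m (.a (.m (.c 1) (.v 3)) (.m (.c 7) (.v 2))) (.v 3)) (.m (.c 3) ph2)) (.v 3)) (.m (.c (-3)) ph3)
def pu1 : Ex := .m (.m (.m (.m (.m (.v 0) (.v 0)) (.v 0)) (.v 0)) (.v 0)) (.v 1)
def eN : Ex := .a (.m (.a (.m (.c 1) (.v 3)) (.m (.c 8) (.v 2))) (.v 3)) (.m (.c 3) ph2)
def pr1 : Ex := .m (.m eN eD) eD
def eH : Ex := .m (.a (.m (.a (.m (.a (.m (.a (.m (.a (.m (.a (.m (.a (.m (.c (-90)) (.v 3)) (.m (.c (-270)) (.v 2))) (.v 3)) (.m (.c 2430) ph2)) (.v 3)) (.m (.c 14490) ph3)) (.v 3)) (.m (.c 29970) ph4)) (.v 3)) (.m (.c 29430) ph5)) (.v 3)) (.m (.c 13770) ph6)) (.v 3)) (.m (.c 2430) ph7)) ph5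
def pu2 : Ex := .m (.m (.m (.m (.m (.v 0) (.v 0)) (.v 0)) (.v 0)) (.v 1)) (.v 1)
def pu3 : Ex := .m (.m (.m (.m (.m (.v 0) (.v 0)) (.v 0)) (.v 1)) (.v 1)) (.v 1)
def pr2 : Ex := .m (.m eN eN) eD
def pu4 : Ex := .m (.m (.m (.m (.m (.v 0) (.v 0)) (.v 1)) (.v 1)) (.v 1)) (.v 1)
def pu5 : Ex := .m (.m (.m (.m (.m (.v 0) (.v 1)) (.v 1)) (.v 1)) (.v 1)) (.v 1)
def pr3 : Ex := .m (.m eN eN) eN
def pu6 : Ex := .m (.m (.m (.m (.m (.v 1) (.v 1)) (.v 1)) (.v 1)) (.v 1)) (.v 1)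
def m11 : Ex := .a (.a (.a (.a (.a (.a (.m pu0 (.m pr0 (.a (.m ad (.m (.c 32) eZ)) (.m an (.m (.c 64) eZ))))) (.m pu1 (.m pr1 (.a (.m ad (.m (.c (-64)) eH)) (.m an (.m (.c (-128)) eH)))))) (.m pu2 (.m pr1 (.a (.m ad (.m (.c 96) eZ)) (.m an (.m (.c 128) eZ)))))) (.m pu3 (.m pr2 (.a (.m ad (.m (.c (-256)) eH)) (.m an (.m (.c (-128)) eH)))))) (.m pu4 (.m pr2 (.a (.m ad (.m (.c 96) eZ)) (.m an (.m (.c 64) eZ)))))) (.m pu5 (.m pr3 (.m ad (.m (.c (-192)) eH))))) (.m pu6 (.m pr3 (.m ad (.m (.c 32) eZ))))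
def ph8 : Ex := .m (.v 2) ph7
def ph9 : Ex := .m (.v 2) ph8
def ph10 : Ex := .m (.v 2) ph9
def ph11 : Ex := .m (.v 2) ph10
def ph12 : Ex := .m (.v 2) ph11
def pa2 : Ex := .a (.m (.a (.m (.a (.m (.a (.m (.a (.m (.a (.m (.a (.m (.a (.m (.a (.m (.a (.m (.a (.m (.a (.m (.c 9) (.v 3)) (.m (.c 223) (.v 2))) (.v 3)) (.m (.c 2041) ph2)) (.v 3)) (.m (.c 8191) ph3)) (.v 3)) (.m (.c 11182) ph4)) (.v 3)) (.m (.c (-14186)) ph5)) (.v 3)) (.m (.c (-53678)) ph6)) (.v 3)) (.m (.c (-50994)) ph7)) (.v 3)) (.m (.c (-4299)) ph8)) (.v 3)) (.m (.c 144459) ph9)) (.v 3)) (.m (.c 199125) ph10)) (.v 3)) (.m (.c 93555) ph11)) (.v 3)) (.m (.c 14580) ph12)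
def pa1 : Ex := .a (.m (.a (.m (.a (.m (.a (.m (.a (.m (.a (.m (.a (.m (.a (.m (.a (.m (.a (.m (.a (.m (.a (.m (.c 9) (.v 3)) (.m (.c 223) (.v 2))) (.v 3)) (.m (.c 2041) ph2)) (.v 3)) (.m (.c 8119) ph3)) (.v 3)) (.m (.c 10714) ph4)) (.v 3)) (.m (.c (-11330)) ph5)) (.v 3)) (.m (.c (-33878)) ph6)) (.v 3)) (.m (.c (-37146)) ph7)) (.v 3)) (.m (.c (-59451)) ph8)) (.v 3)) (.m (.c 111555) ph9)) (.v 3)) (.m (.c 261117) ph10)) (.v 3)) (.m (.c 146691) ph11)) (.v 3)) (.m (.c 25272) ph12)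
def pa0 : Ex := .m (.a (.m (.a (.m (.a (.m (.a (.m (.a (.m (.a (.m (.a (.m (.a (.m (.a (.m (.c (-72)) (.v 3)) (.m (.c (-468)) (.v 2))) (.v 3)) (.m (.c 2760) ph2)) (.v 3)) (.m (.c 18936) ph3)) (.v 3)) (.m (.c 15672) ph4)) (.v 3)) (.m (.c (-22608)) ph5)) (.v 3)) (.m (.c 63576) ph6)) (.v 3)) (.m (.c 169992) ph7)) (.v 3)) (.m (.c 102384) ph8)) (.v 3)) (.m (.c 18468) ph9)) ph3
def pe2 : Ex := .a (.m (.a (.m (.a (.m (.a (.m (.a (.m (.a (.m (.a (.m (.a (.m (.a (.m (.a (.m (.a (.m (.a (.m (.c 9) (.v 3)) (.m (.c 187) (.v 2))) (.v 3)) (.m (.c 1365) ph2)) (.v 3)) (.m (.c 4047) ph3)) (.v 3)) (.m (.c 3470) ph4)) (.v 3)) (.m (.c (-5618)) ph5)) (.v 3)) (.m (.c (-20502)) ph6)) (.v 3)) (.m (.c (-40818)) ph7)) (.v 3)) (.m (.c (-20619)) ph8)) (.v 3)) (.m (.c 46935) ph9)) (.v 3)) (.m (.c 112833) ph10)) (.v 3)) (.m (.c 74115) ph11))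 (.v 3)) (.m (.c 14580) ph12)
def pe0 : Ex := .m (.a (.m (.a (.m (.a (.m (.a (.m (.a (.m (.a (.m (.a (.m (.a (.m (.c 124) (.v 3)) (.m (.c 112) (.v 2))) (.v 3)) (.m (.c (-3360)) ph2)) (.v 3)) (.m (.c (-11952)) ph3)) (.v 3)) (.m (.c (-22248)) ph4)) (.v 3)) (.m (.c (-39024)) ph5)) (.v 3)) (.m (.c (-32832)) ph6)) (.v 3)) (.m (.c (-6480)) ph7)) (.v 3)) (.m (.c 972) ph8)) ph4
def pe1 : Ex := .a (.m (.a (.m (.a (.m (.a (.m (.a (.m (.a (.m (.a (.m (.a (.m (.a (.m (.a (.m (.a (.m (.a (.m (.c 9) (.v 3)) (.m (.c 187) (.v 2))) (.v 3)) (.m (.c 1365) ph2)) (.v 3)) (.m (.c 4047) ph3)) (.v 3)) (.m (.c 3594) ph4)) (.v 3)) (.m (.c (-5602)) ph5)) (.v 3)) (.m (.c (-23958)) ph6)) (.v 3)) (.m (.c (-50178)) ph7)) (.v 3)) (.m (.c (-33363)) ph8)) (.v 3)) (.m (.c 26055) ph9)) (.v 3)) (.m (.c 111969) ph10)) (.v 3)) (.m (.c 96147) ph11)) (.v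 3)) (.m (.c 23328) ph12)
def m22 : Ex := .a (.a (.a (.a (.a (.a (.m pu0 (.m pr0 (.a (.m ad (.a (.a (.m (.c 2) pa2) (.m (.c 2) pa1)) (.m (.c 2) pa0))) (.m an (.a (.a (.m (.c 2) pa2) (.m (.c 2) pa1)) (.m (.c 2) pa0)))))) (.m pu1 (.m pr1 (.a (.m ad (.a (.m (.c (-4)) pe2) (.m (.c 4) pe0))) (.m an (.a (.a (.m (.c (-6)) pe2) (.m (.c 2) pe1)) (.m (.c 10) pe0))))))) (.m pu2 (.m pr1 (.a (.m ad (.a (.a (.m (.c 10) pa2) (.m (.c 6) pa1)) (.m (.c 2) pa0))) (.m an (.a (.a (.m (.c 4) pa2) (.m (.c (-4)) pa1)) (.m (.c 20) pa0))))))) (.m pu3 (.m pr2 (.a (.m ad (.a (.a (.m (.c (-24)) pe2) (.m (.c 8) pe1)) (.m (.c 8) pe0))) (.m an (.a (.a (.m (.c 4) pe2) (.m (.c (-4)) pe1)) (.m (.c 20) pe0))))))) (.m pu4 (.m pr2 (.a (.m ad (.a (.a (.m (.c 22) pa2) (.m (.c (-10)) pa1)) (.m (.c 22) pa0))) (.m an (.a (.a (.m (.c (-6)) pa2) (.m (.c 2)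 pa1)) (.m (.c 10) pa0))))))) (.m pu5 (.m pr3 (.a (.m ad (.a (.a (.m (.c (-4)) pe2) (.m (.c (-8)) pe1)) (.m (.c 20) pe0))) (.m an (.a (.a (.m (.c 2) pe2) (.m (.c 2) pe1)) (.m (.c 2) pe0))))))) (.m pu6 (.m pr3 (.m ad (.a (.a (.m (.c (-2)) pa2) (.m (.c 2) pa1)) (.m (.c 6) pa0)))))
def m33 : Ex := .a (.a (.a (.a (.a (.a (.m pu0 (.m pr0 (.m ad (.a (.a (.m (.c (-2)) pa2) (.m (.c 2) pa1)) (.m (.c 6) pa0))))) (.m pu1 (.m pr1 (.a (.m ad (.a (.a (.m (.c (-4)) pe2) (.m (.c (-8)) pe1)) (.m (.c 20) pe0))) (.m an (.a (.a (.m (.c 2) pe2) (.m (.c 2) pe1)) (.m (.c 2) pe0))))))) (.m pu2 (.m pr1 (.a (.m ad (.a (.a (.m (.c 22) pa2) (.m (.c (-10)) pa1)) (.m (.c 22) pa0))) (.m an (.a (.a (.m (.c (-6)) pa2) (.m (.c 2) pa1)) (.m (.c 10) pa0))))))) (.m pu3 (.m pr2 (.a (.m ad (.a (.a (.m (.c (-24)) pe2) (.m (.c 8) pe1)) (.m (.c 8) pe0)))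 (.m an (.a (.a (.m (.c 4) pe2) (.m (.c (-4)) pe1)) (.m (.c 20) pe0))))))) (.m pu4 (.m pr2 (.a (.m ad (.a (.a (.m (.c 10) pa2) (.m (.c 6) pa1)) (.m (.c 2) pa0))) (.m an (.a (.a (.m (.c 4) pa2) (.m (.c (-4)) pa1)) (.m (.c 20) pa0))))))) (.m pu5 (.m pr3 (.a (.m ad (.a (.m (.c (-4)) pe2) (.m (.c 4) pe0))) (.m an (.a (.a (.m (.c (-6)) pe2) (.m (.c 2) pe1)) (.m (.c 10) pe0))))))) (.m pu6 (.m pr3 (.a (.m ad (.a (.a (.m (.c 2) pa2) (.m (.c 2) pa1)) (.m (.c 2) pa0))) (.m an (.a (.a (.m (.c 2) pa2) (.m (.c 2) pa1)) (.m (.c 2) pa0))))))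
def m23 : Ex := .a (.a (.a (.a (.a (.a (.m pu0 (.m pr0 (.a (.m ad (.a (.m (.c 2) pe1) (.m (.c 4) pe0))) (.m an (.a (.a pe2 pe1) pe0))))) (.m pu1 (.m pr0 (.a (.m ad (.a (.a (.m (.c (-4)) pa2) (.m (.c (-4)) pa1)) (.m (.c 12) pa0))) (.m an (.a (.a (.m (.c (-2)) pa2) (.m (.c 2) pa1)) (.m (.c 6) pa0))))))) (.m pu2 (.m pr1 (.a (.m ad (.a (.a (.m (.c 16) pe2) (.m (.c (-2)) pe1)) (.m (.c 12) pe0))) (.m an (.a (.a (.m (.c (-1)) pe2) (.m (.c (-1)) pe1)) (.m (.c 15) pe0))))))) (.m pu3 (.m pr1 (.a (.m ad (.a (.a (.m (.c (-24)) pa2) (.m (.c 8) pa1)) (.m (.c 8) pa0))) (.m an (.a (.a (.m (.c 4) pa2) (.m (.c (-4)) pa1)) (.m (.c 20) pa0))))))) (.m pu4 (.m pr2 (.a (.m ad (.a (.a (.m (.c 16) pe2) (.m (.c (-2)) pe1)) (.m (.c 12) pe0))) (.m an (.a (.a (.m (.c (-1)) pe2) (.m (.c (-1)) pe1)) (.m (.c 15) pe0))))))) (.m pu5 (.m pr2 (.a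 (.m ad (.a (.a (.m (.c (-4)) pa2) (.m (.c (-4)) pa1)) (.m (.c 12) pa0))) (.m an (.a (.a (.m (.c (-2)) pa2) (.m (.c 2) pa1)) (.m (.c 6) pa0))))))) (.m pu6 (.m pr3 (.a (.m ad (.a (.m (.c 2) pe1) (.m (.c 4) pe0))) (.m an (.a (.a pe2 pe1) pe0)))))
def mn : Ex := .a (.m eD (.m m22 m33)) (.m (.c (-1)) (.m eN (.m m23 m23)))
def m12 : Ex := .a (.a (.a (.a (.a (.a (.m pu0 (.m pr0 (.a (.m ad (.a (.a (.m (.c 2) pa2) (.m (.c 2) pa1)) (.m (.c 2) pa0))) (.m an (.a (.a (.a (.m (.c 16) eZ) (.m (.c 2) pa2)) (.m (.c 2) pa1)) (.m (.c 2) pa0)))))) (.m pu1 (.m pr1 (.a (.m ad (.a (.m (.c (-4)) pe2) (.m (.c 4) pe0))) (.m an (.a (.a (.a (.m (.c (-6)) pe2) (.m (.c 2) pe1)) (.m (.c 10) pe0)) (.m (.c (-32)) eH))))))) (.m pu2 (.m pr1 (.a (.m ad (.a (.a (.m (.c 10) pa2) (.m (.c 6) pa1)) (.m (.c 2) pa0))) (.m an (.a (.a (.a (.m (.c 32) eZ)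 (.m (.c 4) pa2)) (.m (.c (-4)) pa1)) (.m (.c 20) pa0))))))) (.m pu3 (.m pr2 (.a (.m ad (.a (.a (.a (.m (.c (-24)) pe2) (.m (.c 8) pe1)) (.m (.c 8) pe0)) (.m (.c (-32)) eH))) (.m an (.a (.a (.a (.m (.c 4) pe2) (.m (.c (-4)) pe1)) (.m (.c 20) pe0)) (.m (.c (-32)) eH))))))) (.m pu4 (.m pr2 (.a (.m ad (.a (.a (.m (.c 22) pa2) (.m (.c (-10)) pa1)) (.m (.c 22) pa0))) (.m an (.a (.a (.a (.m (.c 16) eZ) (.m (.c (-6)) pa2)) (.m (.c 2) pa1)) (.m (.c 10) pa0))))))) (.m pu5 (.m pr3 (.a (.m ad (.a (.a (.a (.m (.c (-4)) pe2) (.m (.c (-8)) pe1)) (.m (.c 20) pe0)) (.m (.c (-32)) eH))) (.m an (.a (.a (.m (.c 2) pe2) (.m (.c 2) pe1)) (.m (.c 2) pe0))))))) (.m pu6 (.m pr3 (.m ad (.a (.a (.m (.c (-2)) pa2) (.m (.c 2) pa1)) (.m (.c 6) pa0)))))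
def mb : Ex := .a (.m m11 m22) (.m (.c (-1)) (.m m12 m12))
def m13 : Ex := .a (.a (.a (.a (.a (.a (.m pu0 (.m pr0 (.a (.m ad (.a (.a (.a (.m (.c 2) pe2) (.m (.c 2) pe1)) (.m (.c 2) pe0)) (.m (.c (-16)) eH))) (.m an (.a (.a (.m (.c 2) pe2) (.m (.c 2) pe1)) (.m (.c 2) pe0)))))) (.m pu1 (.m pr0 (.a (.m ad (.a (.m (.c (-4)) pa2) (.m (.c 4) pa0))) (.m an (.a (.a (.a (.m (.c 16) eZ) (.m (.c (-6)) pa2)) (.m (.c 2) pa1)) (.m (.c 10) pa0))))))) (.m pu2 (.m pr1 (.a (.m ad (.a (.a (.a (.m (.c 10) pe2) (.m (.c 6) pe1)) (.m (.c 2) pe0)) (.m (.c (-16)) eH))) (.m an (.a (.a (.a (.m (.c 4) pe2) (.m (.c (-4)) pe1)) (.m (.c 20) pe0)) (.m (.c (-32)) eH))))))) (.m pu3 (.m pr1 (.a (.m ad (.a (.a (.m (.c (-24)) pa2) (.m (.c 8) pa1)) (.m (.c 8) pa0))) (.m an (.a (.a (.a (.m (.c 32) eZ) (.m (.c 4) pa2)) (.m (.c (-4)) pa1)) (.m (.c 20)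 pa0))))))) (.m pu4 (.m pr2 (.a (.m ad (.a (.a (.a (.m (.c 22) pe2) (.m (.c (-10)) pe1)) (.m (.c 22) pe0)) (.m (.c (-16)) eH))) (.m an (.a (.a (.a (.m (.c (-6)) pe2) (.m (.c 2) pe1)) (.m (.c 10) pe0)) (.m (.c (-32)) eH))))))) (.m pu5 (.m pr2 (.a (.m ad (.a (.a (.m (.c (-4)) pa2) (.m (.c (-8)) pa1)) (.m (.c 20) pa0))) (.m an (.a (.a (.a (.m (.c 16) eZ) (.m (.c 2) pa2)) (.m (.c 2) pa1)) (.m (.c 2) pa0))))))) (.m pu6 (.m pr3 (.m ad (.a (.a (.a (.m (.c (-2)) pe2) (.m (.c 2) pe1)) (.m (.c 6) pe0)) (.m (.c (-16)) eH)))))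
def mc : Ex := .a (.m eD (.m m11 m33)) (.m (.c (-1)) (.m eN (.m m13 m13)))
def md : Ex := .a (.a (.m m11 mn) (.m (.c (-1)) (.m eD (.m m12 (.m m12 m33))))) (.m eN (.m m13 (.a (.m (.c 2) (.m m12 m23)) (.m (.c (-1)) (.m m13 m22)))))

def sa : Nat → Ex := env4 (.a (.m (.v 0) (.a (.v 2) (.m (.c 2) (.v 3)))) (.m (.v 1) (.v 2)))
  (.a (.m (.v 0) (.v 2)) (.m (.v 1) (.v 2))) (.v 2) (.v 3)

def sb : Nat → Ex := env4 (.a (.m (.v 0) (.v 2)) (.m (.v 1) (.a (.v 2) (.m (.c 2) (.v 3)))))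
  (.m (.v 1) (.v 2)) (.v 2) (.v 3)

def ok (e : Ex) : Bool :=
  e.hom wA && e.hom wB && (e.sub sa).hom wA && (e.sub sa).hom wB && (e.sub sb).hom wA &&
    (e.sub sb).hom wB && cellK e 1 0 0 (-1) 1 0 5 8 && cellK e 1 1 0 1 1 0 5 8 &&
    cellK (e.sub sa) 1 0 0 1 1 0 5 8 && cellK (e.sub sb) 1 0 0 1 1 0 5 8

theorem ok_sound {e : Ex} (h : ok e = true) {u k : ℝ} (w : ℝ) (hu : 0 ≤ u) (hk : 0 ≤ k)
    (hk' : k ≤ 8 / 5) : 0 ≤ e.ev (env4 u w 1 k) := by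
  simp only [ok, Bool.and_eq_true] at h
  obtain ⟨⟨⟨⟨⟨⟨⟨⟨⟨a1, a2⟩, a3⟩, a4⟩, a5⟩, a6⟩, c1⟩, c2⟩, c3⟩, c4⟩ := h
  have p1 : 0 ≤ 1 - 5 * k / 8 := by linarith
  have p2 : 0 ≤ k / 8 := by linarith
  have ha : ∀ m n : ℝ, 0 ≤ m → 0 ≤ n → 0 ≤ e.ev (env4 (m * (1 + 2 * k) + n) (m + n) 1 k) := by
    intro m n hm hn
    have h := cellK_sound a3 a4 c3 hm hn p1 p2
    rw [Ex.ev_sub] at h
    refine h.trans_eq (congrArg (fun f => e.ev f) ?_)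
    funext i
    match i with
    | 0 => simp only [sa, env4, Ex.ev]; push_cast; ring
    | 1 => simp only [sa, env4, Ex.ev]; push_cast; ring
    | 2 => simp only [sa, env4, Ex.ev]; push_cast; ring
    | _ + 3 => simp only [sa, env4, Ex.ev]; push_cast; ring
  rcases le_total w 0 with h1 | h1
  · have h := cellK_sound a1 a2 c1 hu (neg_nonneg.2 h1) p1 p2
    convert h using 3 <;> (push_cast; ring)
  rcases le_total u w with h2 | h2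
  · have h := cellK_sound a1 a2 c2 hu (sub_nonneg.2 h2) p1 p2
    convert h using 3 <;> (push_cast; ring)
  rcases le_total ((1 + 2 * k) * w) u with h3 | h3
  · have h := cellK_sound a5 a6 c4 (sub_nonneg.2 h3) h1 p1 p2
    rw [Ex.ev_sub] at h
    refine h.trans_eq (congrArg (fun f => e.ev f) ?_)
    funext i
    match i with
    | 0 => simp only [sb, env4, Ex.ev]; push_cast; ring
    | 1 => simp only [sb, env4, Ex.ev]; push_cast; ring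
    | 2 => simp only [sb, env4, Ex.ev]; push_cast; ring
    | _ + 3 => simp only [sb, env4, Ex.ev]; push_cast; ring
  rcases hk.eq_or_lt with h4 | h4
  · have h := ha 0 w le_rfl h1
    have e1 : u = w := by rw [← h4] at h3; linarith
    convert h using 3 <;> simp [e1]
  · have h5 : (u - w) / (2 * k) ≤ w := by rw [div_le_iff₀ (by linarith)]; linarith
    have h := ha ((u - w) / (2 * k)) (w - (u - w) / (2 * k))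
      (div_nonneg (sub_nonneg.2 h2) (by linarith)) (sub_nonneg.2 h5)
    convert h using 3
    · field_simp; ring
    · ring

theorem ok11 : ok m11 = true := by decide +kernel
theorem ok22 : ok m22 = true := by decide +kernel
theorem ok33 : ok m33 = true := by decide +kernel
theorem okn : ok mn = true := by decide +kernel
theorem okb : ok mb = true := by decide +kernel
theorem okc : ok mc = true := by decide +kernel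
theorem okd : ok md = true := by decide +kernel

end Pool.Agent.MP_515557_an.H14.DD
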