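import Pool.Agent.MP_515557_an.H14.Fam
import Pool.Agent.MP_515557_an.H14.DDPoly

/-! The certificate for the extremal members of the family. -/

set_option autoImplicit false

open MeasureTheory Set Real Filter Topology

namespace Pool.Agent.MP_515557_an.H14.DD

open Pool.Agent.MP_515557_an.H11

theorem psd3' {a b c d e f : ℝ} (ha : 0 ≤ a) (hd : 0 ≤ d) (hf : 0 ≤ f) (h1 : 0 ≤ d * f - e ^ 2)
    (h2 : 0 ≤ a * d - b ^ 2) (h3 : 0 ≤ a * f - c ^ 2)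
    (hD : 0 ≤ a * (d * f - e ^ 2) - b * (b * f - c * e) + c * (b * e - c * d)) (x y z : ℝ) :
    0 ≤ a * x ^ 2 + 2 * b * x * y + 2 * c * x * z + d * y ^ 2 + 2 * e * y * z + f * z ^ 2 := by
  have k : ∀ t : ℝ, 0 < t → 0 ≤ (a + t) * x ^ 2 + 2 * b * x * y + 2 * c * x * z + (d + t) * y ^ 2
      + 2 * e * y * z + (f + t) * z ^ 2 := by
    intro t ht
    refine psd3 (by linarith) ?_ ?_ x y z
    · have := mul_pos ht ht
      have := mul_nonneg ht.le (add_nonneg hd hf)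
      linarith
    · have := mul_nonneg ht.le (add_nonneg (add_nonneg h1 h2) h3)
      have := mul_nonneg (mul_pos ht ht).le (add_nonneg (add_nonneg ha hd) hf)
      have := mul_pos (mul_pos ht ht) ht
      linarith
  exact (nonneg_of_pos (f := fun t => (a + t) * x ^ 2 + 2 * b * x * y + 2 * c * x * z
    + (d + t) * y ^ 2 + 2 * e * y * z + (f + t) * z ^ 2) (by fun_prop) k le_rfl).trans_eq (by ring)

theorem quad (c0 c1 c2 : ℝ) : Pl (fun x y => c0 * x ^ 2 + c1 * x * y + c2 * y ^ 2)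
    (fun x y => 2 * c0 * x + c1 * y) (fun x y => c1 * x + 2 * c2 * y) :=
  (((Pl.lin 1 0).mul (Pl.lin c0 c1)).add ((Pl.lin 0 1).mul (Pl.lin 0 c2))).congr
    (fun _ _ => by ring) (fun _ _ => by ring) (fun _ _ => by ring)

/-- The form of the criterion for quadratic numerators. -/
def QQ (α g f0 f1 f2 g0 g1 g2 ρ s A u v : ℝ) : ℝ :=
  QP 1 α 1 (1 - g) (1 + g) (ρ ^ 2 + 1 * s ^ 2) ((1 - g) * ρ ^ 2 + (1 + g) * s ^ 2)
    (f0 * (ρ ^ 2) ^ 2 + f1 * ρ ^ 2 * s ^ 2 + f2 * (s ^ 2) ^ 2) (2 * f0 * ρ ^ 2 + f1 * s ^ 2)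
    (f1 * ρ ^ 2 + 2 * f2 * s ^ 2)
    (g0 * (ρ ^ 2) ^ 2 + g1 * ρ ^ 2 * s ^ 2 + g2 * (s ^ 2) ^ 2) (2 * g0 * ρ ^ 2 + g1 * s ^ 2)
    (g1 * ρ ^ 2 + 2 * g2 * s ^ 2) ρ s A u v

theorem QQ_neg (α g f0 f1 f2 g0 g1 g2 ρ s A u v : ℝ) :
    QQ α g f0 f1 f2 g0 g1 g2 (-ρ) (-s) A u v = QQ α g f0 f1 f2 g0 g1 g2 ρ s A u v := by
  simp only [QQ, QP, QF, neg_sq]
  ring

theorem QQ_g (α g f0 f1 f2 g0 g1 g2 ρ s A u v : ℝ) :
    QQ α g f0 f1 f2 g0 g1 g2 ρ s A u v = QQ α 0 f0 f1 f2 g0 g1 g2 ρ s A u v + α * g *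
      QF ((ρ ^ 2 + s ^ 2) ^ 2 * (s ^ 2 - ρ ^ 2)) ((ρ ^ 2 + s ^ 2) ^ 2 * (s ^ 2 - ρ ^ 2))
        ((ρ ^ 2 + s ^ 2) * ((α - 1) * (s ^ 2 - ρ ^ 2) - 2 * (ρ ^ 2 + s ^ 2)))
        ((ρ ^ 2 + s ^ 2) * ((α - 1) * (s ^ 2 - ρ ^ 2)))
        ((ρ ^ 2 + s ^ 2) * ((α - 1) * (s ^ 2 - ρ ^ 2) + 2 * (ρ ^ 2 + s ^ 2))) 0 0 0 0 0 0
        ρ s A u v := by
  simp only [QQ, QP, QF]
  ring

theorem QQ_eq {env : Nat → ℝ} {α g r H a0 a1 a2 e0 e1 e2 D T Z u w : ℝ} (h0 : env 0 = u)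
    (h1 : env 1 = w) (hD : eD.ev env = D) (hN : eN.ev env = r ^ 2 * D) (hT : ad.ev env = T)
    (hα : an.ev env = α * T) (hZ : eZ.ev env = Z) (hH : eH.ev env = H * Z)
    (ha0 : pa0.ev env = a0 * Z) (ha1 : pa1.ev env = a1 * Z) (ha2 : pa2.ev env = a2 * Z)
    (he0 : pe0.ev env = e0 * Z) (he1 : pe1.ev env = e1 * Z) (he2 : pe2.ev env = e2 * Z)
    (hg : α * g = (α + 1) * (r * H)) (A a b : ℝ) :
    D ^ 3 * T * Z * QQ α g ((α + 1) * (a0 + r * e0)) ((α + 1) * (a1 + r * e1))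
      ((α + 1) * (a2 + r * e2)) ((α + 1) * (a2 - r * e2)) ((α + 1) * (a1 - r * e1))
      ((α + 1) * (a0 - r * e0)) (u + r * w) (u - r * w) A a b
    = (α + 1) * (m11.ev env * A ^ 2 + 2 * m12.ev env * A * (a + b)
      + 2 * (r * m13.ev env) * A * (a - b) + m22.ev env * (a + b) ^ 2
      + 2 * (r * m23.ev env) * (a + b) * (a - b) + m33.ev env * (a - b) ^ 2) := by
  rw [QQ_g, hg]
  simp only [m11, m12, m13, m22, m23, m33, pr0, pr1, pr2, pr3, pu0, pu1, pu2, pu3, pu4, pu5, pu6,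
    Ex.ev, h0, h1, hD, hN, hT, hα, hZ, hH, ha0, ha1, ha2, he0, he1, he2, QQ, QP, QF]
  push_cast
  ring

end Pool.Agent.MP_515557_an.H14.DD
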