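import Pool.Agent.MP_515557_an.H14.DDForm
import Pool.Agent.MP_515557_an.H11.IsoMain

/-! Rank-one convexity implies quasiconvexity for `|F| ^ (2 a) (|F| ^ 2 - g det F)`, `a ≤ 2`. -/

set_option autoImplicit false

open MeasureTheory Set Real Filter Topology

namespace Pool.Agent.MP_515557_an.H14.DD

open Pool.Agent.MP_515557_an.H11

noncomputable def al (k : ℝ) : ℝ := (k ^ 3 + 7 * k ^ 2 + 3 * k - 3) / (2 * (k ^ 2 + 3))

noncomputable def pv (e : Ex) (k : ℝ) : ℝ := e.ev (env4 0 0 1 k) / eZ.ev (env4 0 0 1 k)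

theorem al_pos {k : ℝ} (hk : 0 ≤ k) : 0 < al k + 1 := by
  have : al k + 1 = (k ^ 3 + 9 * k ^ 2 + 3 * k + 3) / (2 * (k ^ 2 + 3)) := by
    unfold al; field_simp; ring
  rw [this]; positivity

theorem ext_nonneg' {k r g : ℝ} (hk : 0 ≤ k) (hk' : k ≤ 8 / 5)
    (hr : r ^ 2 * (k ^ 2 + 3) = k ^ 2 + 8 * k + 3)
    (hg : al k * g = (al k + 1) * (r * ((k + 1) ^ 2 / (k ^ 2 + 8 * k + 3)))) {ρ s : ℝ}
    (hu : 0 ≤ ρ + s) (A a b : ℝ) :
    0 ≤ QQ (al k) g ((al k + 1) * (pv pa0 k + r * pv pe0 k)) ((al k + 1) * (pv pa1 k + r * pv pe1 k))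
      ((al k + 1) * (pv pa2 k + r * pv pe2 k)) ((al k + 1) * (pv pa2 k - r * pv pe2 k))
      ((al k + 1) * (pv pa1 k - r * pv pe1 k)) ((al k + 1) * (pv pa0 k - r * pv pe0 k)) ρ s A a b := by
  have hD0 : 0 < k ^ 2 + 3 := by positivity
  have hN0 : 0 < k ^ 2 + 8 * k + 3 := by positivity
  have hr0 : r ≠ 0 := by rintro rfl; linarith
  obtain ⟨u, w, rfl, rfl⟩ : ∃ u w, ρ = u + r * w ∧ s = u - r * w :=
    ⟨(ρ + s) / 2, (ρ - s) / (2 * r), by field_simp; ring, by field_simp; ring⟩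
  have hu0 : 0 ≤ u := by linarith
  have hZ : eZ.ev (env4 0 0 1 k) = 90 * (k + 1) * (k + 3) ^ 2 * (k ^ 2 + 8 * k + 3)
      * (3 + k * (6 - k)) := by
    simp only [eZ, ph2, ph3, ph4, ph5, ph6, ph7, Ex.ev, env4]; push_cast; ring
  have hZ0 : 0 < eZ.ev (env4 0 0 1 k) := by
    have : 0 ≤ 6 - k := by linarith
    rw [hZ]; positivity
  have hD : eD.ev (env4 u w 1 k) = k ^ 2 + 3 := by
    simp only [eD, ph2, Ex.ev, env4]; push_cast; ring
  have hN : eN.ev (env4 u w 1 k) = r ^ 2 * (k ^ 2 + 3) := by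
    rw [hr]; simp only [eN, ph2, Ex.ev, env4]; push_cast; ring
  have e := QQ_eq (env := env4 u w 1 k) (α := al k) (g := g) (r := r)
    (H := (k + 1) ^ 2 / (k ^ 2 + 8 * k + 3)) (a0 := pv pa0 k) (a1 := pv pa1 k) (a2 := pv pa2 k)
    (e0 := pv pe0 k) (e1 := pv pe1 k) (e2 := pv pe2 k) (D := k ^ 2 + 3) (T := 2 * (k ^ 2 + 3))
    (Z := eZ.ev (env4 0 0 1 k)) (u := u) (w := w) rfl rfl hD hN
    (by simp only [ad, eD, ph2, Ex.ev, env4]; push_cast; ring)
    (by simp only [an, ph2, ph3, Ex.ev, env4, al]; push_cast; field_simp; ring) rfl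
    (by rw [hZ]; simp only [eH, ph2, ph3, ph4, ph5, ph6, ph7, Ex.ev, env4]; push_cast; field_simp; ring)
    (div_mul_cancel₀ _ hZ0.ne').symm (div_mul_cancel₀ _ hZ0.ne').symm
    (div_mul_cancel₀ _ hZ0.ne').symm (div_mul_cancel₀ _ hZ0.ne').symm
    (div_mul_cancel₀ _ hZ0.ne').symm (div_mul_cancel₀ _ hZ0.ne').symm hg A a b
  have n1 := ok_sound okn w hu0 hk hk'
  have n2 := ok_sound okb w hu0 hk hk'
  have n3 := ok_sound okc w hu0 hk hk'
  have n4 := ok_sound okd w hu0 hk hk'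
  simp only [md, mn, mb, mc, Ex.ev, hD, hN] at n1 n2 n3 n4
  push_cast at n1 n2 n3 n4
  have q := psd3' (b := m12.ev (env4 u w 1 k)) (c := r * m13.ev (env4 u w 1 k))
    (e := r * m23.ev (env4 u w 1 k)) (ok_sound ok11 w hu0 hk hk') (ok_sound ok22 w hu0 hk hk')
    (ok_sound ok33 w hu0 hk hk') (nonneg_of_mul_nonneg_right (n1.trans_eq (by ring)) hD0)
    (n2.trans_eq (by ring)) (nonneg_of_mul_nonneg_right (n3.trans_eq (by ring)) hD0)
    (nonneg_of_mul_nonneg_right (n4.trans_eq (by ring)) hD0) A (a + b) (a - b)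
  have q2 := mul_nonneg (al_pos hk).le q
  rw [← e] at q2
  exact nonneg_of_mul_nonneg_right q2 (by positivity)

/-- The family in conformal coordinates. -/
noncomputable def Wg (α g : ℝ) (F : E) : ℝ :=
  (sz F F + 1 * sw F F) ^ α * ((1 - g) * sz F F + (1 + g) * sw F F)

theorem cont_Wg {α : ℝ} (hα : 0 < α + 1) (g : ℝ) : Continuous (Wg α g) := by
  have h1 : Continuous fun F : E => sz F F := by unfold sz z1 z2; fun_prop
  have h2 : Continuous fun F : E => sw F F := by unfold sw w1 w2; fun_prop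
  have hb : Continuous fun F : E => sz F F + 1 * sw F F := h1.add (continuous_const.mul h2)
  refine continuous_iff_continuousAt.2 fun F => ?_
  by_cases hF : F = 0
  · subst hF
    have z0 : sz 0 0 = 0 := by simp [sz, z1, z2]
    have w0 : sw 0 0 = 0 := by simp [sw, w1, w2]
    have c : Tendsto (fun F : E => (1 + |g|) * (sz F F + 1 * sw F F) ^ (α + 1)) (𝓝 0) (𝓝 0) := by
      have := ((hb.rpow_const (p := α + 1) fun _ => Or.inr hα.le).tendsto 0).const_mul (1 + |g|)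
      simpa only [z0, w0, mul_zero, add_zero, zero_rpow hα.ne'] using this
    have e : Wg α g 0 = 0 := by simp only [Wg, z0, w0, mul_zero, add_zero]
    rw [ContinuousAt, e]
    refine squeeze_zero_norm (fun F => ?_) c
    have nz : 0 ≤ sz F F := add_nonneg (mul_self_nonneg _) (mul_self_nonneg _)
    have nw : 0 ≤ sw F F := add_nonneg (mul_self_nonneg _) (mul_self_nonneg _)
    have nb : 0 ≤ sz F F + 1 * sw F F := by linarith
    rw [rpow_add' nb hα.ne', rpow_one, Real.norm_eq_abs, Wg, abs_mul,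
      abs_of_nonneg (rpow_nonneg nb α), mul_left_comm]
    refine mul_le_mul_of_nonneg_left (abs_le.2 ⟨?_, ?_⟩) (rpow_nonneg nb α)
    · nlinarith [mul_nonneg (sub_nonneg.2 (le_abs_self g)) nz,
        mul_nonneg (sub_nonneg.2 (neg_le_abs g)) nw]
    · nlinarith [mul_nonneg (sub_nonneg.2 (le_abs_self g)) nw,
        mul_nonneg (sub_nonneg.2 (neg_le_abs g)) nz]
  · exact (hb.continuousAt.rpow_const (Or.inl (pos_of_ne one_pos hF).ne')).mul
      ((continuous_const.mul h1).add (continuous_const.mul h2)).continuousAt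

theorem ext_tqc {k r g : ℝ} (hk : 0 ≤ k) (hk' : k ≤ 8 / 5)
    (hr : r ^ 2 * (k ^ 2 + 3) = k ^ 2 + 8 * k + 3)
    (hg : al k * g = (al k + 1) * (r * ((k + 1) ^ 2 / (k ^ 2 + 8 * k + 3)))) :
    TQC (Wg (al k) g) := by
  exact fam_tqc 1 one_pos (cont_Wg (al_pos hk) g) (quad _ _ _) (quad _ _ _) fun ρ s A u v _ =>
    (le_total 0 (ρ + s)).elim (fun h => ext_nonneg' hk hk' hr hg h A u v) fun h =>
      (ext_nonneg' hk hk' hr hg (ρ := -ρ) (s := -s) (by linarith) A u v).trans_eq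
        (QQ_neg _ _ _ _ _ _ _ _ _ _ _ _ _)

theorem zero_tqc (g : ℝ) : TQC (Wg 0 g) := by
  refine fam_tqc 0 one_pos (cont_Wg (by norm_num) g) (Pl.lin 0 0) (Pl.lin 0 0) fun ρ s A u v _ => ?_
  have : 0 ≤ 4 * (ρ ^ 2 + s ^ 2) ^ 2 * A ^ 2 := by positivity
  refine this.trans_eq ?_
  simp only [QP, QF]
  ring

theorem tqc_smul {W : E → ℝ} (h : TQC W) {c : ℝ} (hc : 0 ≤ c) : TQC fun F => c * W F := by
  intro R hR ι _ k φ a F₀
  rw [integral_const_mul, mul_assoc]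
  exact mul_le_mul_of_nonneg_left (h R hR ι k φ a F₀) hc

theorem second_nonneg {φ ψ : ℝ → ℝ} {c : ℝ} (h1 : ∀ x, HasDerivAt φ (ψ x) x)
    (h2 : HasDerivAt ψ c 1) (h : ∀ t, t ≠ 0 → 2 * φ 1 ≤ φ (1 - t) + φ (1 + t)) : 0 ≤ c := by
  by_contra hc
  push Not at hc
  have d1 : ∀ t, HasDerivAt (fun t => φ (1 - t) + φ (1 + t)) (ψ (1 + t) - ψ (1 - t)) t := fun t =>
    (((h1 (1 - t)).comp_const_sub 1 t).fun_add ((h1 (1 + t)).comp_const_add 1 t)).congr_deriv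
      (by ring)
  have d2 : HasDerivAt (fun t => ψ (1 + t) - ψ (1 - t)) (2 * c) 0 := by
    have a1 : HasDerivAt ψ c (1 + 0) := by rwa [add_zero]
    have a2 : HasDerivAt ψ c (1 - 0) := by rwa [sub_zero]
    exact ((a1.comp_const_add 1 0).fun_sub (a2.comp_const_sub 1 0)).congr_deriv (by ring)
  have ev := (hasDerivAt_iff_tendsto_slope_zero.1 d2).mono_left (nhdsGT_le_nhdsNE 0)
  obtain ⟨δ, hδ, hs⟩ := (nhdsGT_basis (0 : ℝ)).eventually_iff.1
    (ev.eventually (gt_mem_nhds (show 2 * c < 0 by linarith)))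
  obtain ⟨ξ, hξ, e⟩ := exists_hasDerivAt_eq_slope (fun t => φ (1 - t) + φ (1 + t))
    (fun t => ψ (1 + t) - ψ (1 - t)) (half_pos hδ)
    (fun t _ => (d1 t).continuousAt.continuousWithinAt) fun t _ => d1 t
  have k := hs (show ξ ∈ Ioo 0 δ from ⟨hξ.1, by linarith [hξ.2]⟩)
  simp only [zero_add, add_zero, sub_zero, sub_self, smul_eq_mul] at k e
  have k2 : ψ (1 + ξ) - ψ (1 - ξ) < 0 := by
    by_contra hh
    push Not at hh
    linarith [mul_nonneg (inv_pos.2 hξ.1).le hh]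
  rw [e, div_neg_iff] at k2
  have := h (δ / 2) (half_pos hδ).ne'
  rcases k2 with k2 | k2 <;> linarith [k2.1, k2.2]

/-- The family in matrix entries. -/
noncomputable def Wm (α γ : ℝ) (F : Mat) : ℝ :=
  (F 0 0 ^ 2 + F 0 1 ^ 2 + F 1 0 ^ 2 + F 1 1 ^ 2) ^ α *
    (F 0 0 ^ 2 + F 0 1 ^ 2 + F 1 0 ^ 2 + F 1 1 ^ 2 - γ * (F 0 0 * F 1 1 - F 0 1 * F 1 0))

theorem Wm_diag (α γ x y : ℝ) :
    Wm α γ !![x, 0; 0, y] = (x ^ 2 + y ^ 2) ^ α * (x ^ 2 + y ^ 2 - γ * (x * y)) := by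
  simp [Wm]

theorem nec_half {α γ : ℝ} (h : RC (Wm α γ)) : -(1 / 2) ≤ α := by
  have := h.mid 1 0 0 0 1 one_ne_zero
  simp only [Wm_diag] at this
  norm_num at this
  by_contra hc
  push Not at hc
  have h1 : (4 : ℝ) ^ α < 4 ^ (-(1 / 2) : ℝ) := rpow_lt_rpow_of_exponent_lt (by norm_num) hc
  have h2 : (4 : ℝ) ^ (-(1 / 2) : ℝ) = 1 / 2 := by
    rw [show (4 : ℝ) = 2 ^ (2 : ℝ) by norm_num, ← rpow_mul (by norm_num)]
    norm_num
  linarith

theorem nec_line {α γ y : ℝ} (hy : y ≠ 0) (h : RC (Wm α γ)) :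
    γ * α * y * (3 * y ^ 2 + 2 * α + 1) ≤ (α + 1) * (1 + y ^ 2) * (y ^ 2 + 2 * α + 1) := by
  have hp : ∀ x : ℝ, 0 < x ^ 2 + y ^ 2 := fun x => by positivity
  have dn : ∀ x : ℝ, HasDerivAt (fun x : ℝ => x ^ 2 + y ^ 2) (2 * x) x := fun x => by
    simpa using (hasDerivAt_pow 2 x).add_const (y ^ 2)
  have dl : ∀ x : ℝ, HasDerivAt (fun x : ℝ => x ^ 2 + y ^ 2 - γ * (x * y)) (2 * x - γ * y) x :=
    fun x => ((dn x).fun_sub (((hasDerivAt_id' x).mul_const y).const_mul γ)).congr_deriv (by ring)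
  have d1 : ∀ x, HasDerivAt (fun x : ℝ => (x ^ 2 + y ^ 2) ^ α * (x ^ 2 + y ^ 2 - γ * (x * y)))
      ((x ^ 2 + y ^ 2) ^ (α - 1) * (2 * α * x * (x ^ 2 + y ^ 2 - γ * (x * y))
        + (x ^ 2 + y ^ 2) * (2 * x - γ * y))) x := fun x => by
    refine (((dn x).rpow_const (p := α) (Or.inl (hp x).ne')).fun_mul (dl x)).congr_deriv ?_
    have e : (x ^ 2 + y ^ 2) ^ α = (x ^ 2 + y ^ 2) ^ (α - 1) * (x ^ 2 + y ^ 2) := by
      rw [← rpow_add_one (hp x).ne', sub_add_cancel]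
    rw [e]; ring
  have d2 := ((dn 1).rpow_const (p := α - 1) (Or.inl (hp 1).ne')).fun_mul
    (((((hasDerivAt_id' (1 : ℝ)).const_mul (2 * α)).fun_mul (dl 1))).fun_add
      ((dn 1).fun_mul ((((hasDerivAt_id' (1 : ℝ)).const_mul 2)).sub_const (γ * y))))
  have k := second_nonneg d1 d2 fun t ht => by
    simpa only [Wm_diag] using h.mid 1 0 0 y t ht
  have e : ((1 : ℝ) ^ 2 + y ^ 2) ^ (α - 1) = (1 ^ 2 + y ^ 2) ^ (α - 1 - 1) * (1 ^ 2 + y ^ 2) := by
    rw [← rpow_add_one (hp 1).ne', sub_add_cancel]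
  rw [e] at k
  have k2 : 0 ≤ ((1 : ℝ) ^ 2 + y ^ 2) ^ (α - 1 - 1) * (2 * ((α + 1) * (1 + y ^ 2) * (y ^ 2 + 2 * α + 1)
      - γ * α * y * (3 * y ^ 2 + 2 * α + 1))) := k.trans_eq (by ring)
  linarith [nonneg_of_mul_nonneg_right k2 (rpow_pos_of_pos (hp 1) _)]

theorem Wm_eq (α γ : ℝ) (F : E) : Wm α γ F = (2 ^ (α + 1))⁻¹ * Wg α (γ / 2) F := by
  have e1 : sz F F + 1 * sw F F = 2 * (F 0 0 ^ 2 + F 0 1 ^ 2 + F 1 0 ^ 2 + F 1 1 ^ 2) := by
    simp only [sz, sw, z1, z2, w1, w2]; ring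
  rw [Wg, e1, mul_rpow (by norm_num) (by positivity), rpow_add_one (by norm_num)]
  have : (0 : ℝ) < 2 ^ α := by positivity
  simp only [Wm, sz, sw, z1, z2, w1, w2]
  field_simp
  ring

theorem tqc_of_rc {α γ : ℝ} (hα : α ≤ 2) (h : RC (Wm α γ)) : TQC (Wg α (γ / 2)) := by
  rcases eq_or_ne α 0 with rfl | h0
  · exact zero_tqc _
  have cal : Continuous al := by
    unfold al
    exact Continuous.div (by fun_prop) (by fun_prop) fun k => by positivity
  obtain ⟨k, ⟨hk, hk'⟩, rfl⟩ := intermediate_value_Icc (show (0 : ℝ) ≤ 8 / 5 by norm_num)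
    cal.continuousOn (show α ∈ Icc (al 0) (al (8 / 5)) from
      ⟨le_trans (by unfold al; norm_num) (nec_half h), hα.trans (by unfold al; norm_num)⟩)
  have hD0 : 0 < k ^ 2 + 3 := by positivity
  have hN0 : 0 < k ^ 2 + 8 * k + 3 := by positivity
  have h1 := al_pos hk
  obtain ⟨r, hr0, hr⟩ : ∃ r : ℝ, 0 < r ∧ r ^ 2 * (k ^ 2 + 3) = k ^ 2 + 8 * k + 3 :=
    ⟨√((k ^ 2 + 8 * k + 3) / (k ^ 2 + 3)), by positivity, by
      rw [sq_sqrt (by positivity)]; field_simp⟩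
  set g := (al k + 1) * (r * ((k + 1) ^ 2 / (k ^ 2 + 8 * k + 3))) / al k with hgd
  have hg : al k * g = (al k + 1) * (r * ((k + 1) ^ 2 / (k ^ 2 + 8 * k + 3))) := by
    rw [hgd]; field_simp
  have t1 := ext_tqc hk hk' hr hg
  have t2 := ext_tqc (r := -r) (g := -g) hk hk' (by rwa [neg_sq]) (by linarith)
  have hR : r ^ 2 = (k ^ 2 + 8 * k + 3) / (k ^ 2 + 3) := by rw [← hr]; field_simp
  have hb : 2 * al k + 1 = k * r ^ 2 := by rw [hR]; unfold al; field_simp; ring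
  set P := (al k + 1) * ((k + 1) ^ 2 / (k ^ 2 + 3)) with hP
  have hP0 : 0 < P := by positivity
  have hPg : al k * g * r = P := by
    rw [hg, hP, ← hr]; field_simp
  have key : ∀ y : ℝ, y ^ 2 = r ^ 2 → γ / 2 * al k * y ≤ P := by
    intro y hy
    have hy0 : y ≠ 0 := by rintro rfl; nlinarith
    have := nec_line hy0 h
    rw [hy, add_assoc (3 * r ^ 2), add_assoc (r ^ 2), hb] at this
    have e : (al k + 1) * (1 + r ^ 2) * (r ^ 2 + k * r ^ 2) = 2 * P * (3 * r ^ 2 + k * r ^ 2) := by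
      have : 1 + r ^ 2 = 2 * (k + 1) * (k + 3) / (k ^ 2 + 3) := by rw [hR]; field_simp; ring
      rw [this, hP]; field_simp; ring
    rw [e] at this
    have := le_of_mul_le_mul_right this (by positivity)
    linarith
  have k1 := key r rfl
  have k2 := key (-r) (neg_sq r)
  set Y := γ / 2 * al k * r with hY
  have c1 : 0 ≤ (P + Y) / (2 * P) := div_nonneg (by linarith) (by linarith)
  have c2 : 0 ≤ (P - Y) / (2 * P) := div_nonneg (by linarith) (by linarith)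
  have e : Wg (al k) (γ / 2) = fun F => (P + Y) / (2 * P) * Wg (al k) g F
      + (P - Y) / (2 * P) * Wg (al k) (-g) F := by
    funext F
    have e2 : γ / 2 = g * Y / P := by rw [hY, eq_div_iff hP0.ne', ← hPg]; ring
    rw [e2]
    simp only [Wg]
    field_simp
    ring
  rw [e]
  exact TQC.add (tqc_smul t1 c1) (tqc_smul t2 c2) (continuous_const.mul (cont_Wg h1 _))
    (continuous_const.mul (cont_Wg h1 _))

theorem dd_main {α γ : ℝ} (hα : α ≤ 2) (h : RC (Wm α γ)) : QC (Wm α γ) := by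
  have e : (Wm α γ : E → ℝ) = fun F => (2 ^ (α + 1))⁻¹ * Wg α (γ / 2) F := funext (Wm_eq α γ)
  have h1 : 0 < α + 1 := by linarith [nec_half h]
  rw [e]
  exact (tqc_smul (tqc_of_rc hα h) (by positivity)).qc (continuous_const.mul (cont_Wg h1 _))

end Pool.Agent.MP_515557_an.H14.DD
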