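import Pool.Agent.MP_515557_an.H14.Crit

/-! The family `(|z|² + l |w|²) ^ α (a |z|² + c |w|²)`. -/

set_option autoImplicit false

open MeasureTheory Set Real Filter Topology

namespace Pool.Agent.MP_515557_an.H14

open Pool.Agent.MP_515557_an.H11

/-- `p` has the continuous first derivatives `px`, `py` in the plane. -/
structure Pl (p px py : ℝ → ℝ → ℝ) : Prop where
  c : Continuous fun z : ℝ × ℝ => p z.1 z.2
  cx : Continuous fun z : ℝ × ℝ => px z.1 z.2
  cy : Continuous fun z : ℝ × ℝ => py z.1 z.2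
  d : ∀ (X Y : ℝ → ℝ) (X' Y' t : ℝ), HasDerivAt X X' t → HasDerivAt Y Y' t →
    HasDerivAt (fun s => p (X s) (Y s)) (px (X t) (Y t) * X' + py (X t) (Y t) * Y') t

theorem Pl.lin (a c : ℝ) : Pl (fun x y => a * x + c * y) (fun _ _ => a) (fun _ _ => c) :=
  ⟨by fun_prop, by fun_prop, by fun_prop, fun _ _ _ _ _ hX hY =>
    (hX.const_mul a).fun_add (hY.const_mul c)⟩

theorem Pl.mul {p px py q qx qy : ℝ → ℝ → ℝ} (hp : Pl p px py) (hq : Pl q qx qy) :
    Pl (fun x y => p x y * q x y) (fun x y => px x y * q x y + p x y * qx x y)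
      (fun x y => py x y * q x y + p x y * qy x y) :=
  ⟨hp.c.mul hq.c, (hp.cx.mul hq.c).add (hp.c.mul hq.cx), (hp.cy.mul hq.c).add (hp.c.mul hq.cy),
    fun X Y X' Y' t hX hY =>
      ((hp.d X Y X' Y' t hX hY).fun_mul (hq.d X Y X' Y' t hX hY)).congr_deriv (by ring)⟩

theorem Pl.add {p px py q qx qy : ℝ → ℝ → ℝ} (hp : Pl p px py) (hq : Pl q qx qy) :
    Pl (fun x y => p x y + q x y) (fun x y => px x y + qx x y) (fun x y => py x y + qy x y) :=
  ⟨hp.c.add hq.c, hp.cx.add hq.cx, hp.cy.add hq.cy, fun X Y X' Y' t hX hY =>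
    ((hp.d X Y X' Y' t hX hY).fun_add (hq.d X Y X' Y' t hX hY)).congr_deriv (by ring)⟩

theorem Pl.congr {p px py q qx qy : ℝ → ℝ → ℝ} (hp : Pl p px py) (h : ∀ x y, q x y = p x y)
    (hx : ∀ x y, qx x y = px x y) (hy : ∀ x y, qy x y = py x y) : Pl q qx qy := by
  have e : q = p := funext fun x => funext (h x)
  have ex : qx = px := funext fun x => funext (hx x)
  have ey : qy = py := funext fun x => funext (hy x)
  rwa [e, ex, ey]

theorem Sm.congr {l : ℝ} {p px py q qx qy : ℝ → ℝ → ℝ} (hp : Sm l p px py)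
    (h : ∀ x y, q x y = p x y) (hx : ∀ x y, qx x y = px x y) (hy : ∀ x y, qy x y = py x y) :
    Sm l q qx qy := by
  have e : q = p := funext fun x => funext (h x)
  have ex : qx = px := funext fun x => funext (hx x)
  have ey : qy = py := funext fun x => funext (hy x)
  rwa [e, ex, ey]

theorem Pl.rpow {p px py : ℝ → ℝ → ℝ} (hp : Pl p px py) (l κ : ℝ) :
    Sm l (fun x y => (x + l * y) ^ κ * p x y)
      (fun x y => (x + l * y) ^ (κ - 1) * (κ * p x y + (x + l * y) * px x y))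
      (fun x y => (x + l * y) ^ (κ - 1) * (κ * l * p x y + (x + l * y) * py x y)) := by
  have cb : Continuous fun z : ℝ × ℝ => z.1 + l * z.2 := by fun_prop
  have cr : ∀ k : ℝ, ContinuousOn (fun z : ℝ × ℝ => (z.1 + l * z.2) ^ k) {z | 0 < z.1 + l * z.2} :=
    fun k => cb.continuousOn.rpow_const fun z hz => Or.inl (ne_of_gt hz)
  refine ⟨(cr κ).mul hp.c.continuousOn,
    (cr _).mul ((continuous_const.mul hp.c).add (cb.mul hp.cx)).continuousOn,
    (cr _).mul ((continuous_const.mul hp.c).add (cb.mul hp.cy)).continuousOn,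
    fun X Y X' Y' t hb hX hY => ?_⟩
  have h1 := (hX.fun_add (hY.const_mul l)).rpow_const (p := κ) (Or.inl hb.ne')
  refine (h1.fun_mul (hp.d X Y X' Y' t hX hY)).congr_deriv ?_
  have e : (X t + l * Y t) ^ κ = (X t + l * Y t) ^ (κ - 1) * (X t + l * Y t) := by
    rw [← rpow_add_one hb.ne', sub_add_cancel]
  rw [e]
  ring

theorem QF_smul (k wx wy wxx wxy wyy f fx fy g gx gy ρ s A a b : ℝ) :
    QF (k * wx) (k * wy) (k * wxx) (k * wxy) (k * wyy) (k * f) (k * fx) (k * fy) (k * g) (k * gx)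
      (k * gy) ρ s A a b = k * QF wx wy wxx wxy wyy f fx fy g gx gy ρ s A a b := by
  simp only [QF]; ring

/-- The polynomial form of the criterion for the family, with `b = x + l y`, `L = a x + c y`. -/
def QP (m : ℕ) (α l a c b L p px py q qx qy ρ s A u v : ℝ) : ℝ :=
  QF (b ^ (m + 1) * (α * L + a * b)) (b ^ (m + 1) * (α * l * L + c * b))
    (b ^ m * (α * (α - 1) * L + 2 * α * a * b))
    (b ^ m * (α * (α - 1) * l * L + α * (a * l + c) * b))
    (b ^ m * (α * (α - 1) * l ^ 2 * L + 2 * α * l * c * b))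
    (b * p) ((α - 1 - m) * p + b * px) ((α - 1 - m) * l * p + b * py)
    (b * q) ((α - 1 - m) * q + b * qx) ((α - 1 - m) * l * q + b * qy) ρ s A u v

theorem fam_tqc (m : ℕ) {α l a c : ℝ} (hl : 0 < l) {p px py q qx qy : ℝ → ℝ → ℝ}
    (cw : Continuous fun F : E => (sz F F + l * sw F F) ^ α * (a * sz F F + c * sw F F))
    (hp : Pl p px py) (hq : Pl q qx qy)
    (h : ∀ ρ s A u v : ℝ, 0 < ρ ^ 2 + l * s ^ 2 →
      0 ≤ QP m α l a c (ρ ^ 2 + l * s ^ 2) (a * ρ ^ 2 + c * s ^ 2) (p (ρ ^ 2) (s ^ 2))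
        (px (ρ ^ 2) (s ^ 2)) (py (ρ ^ 2) (s ^ 2)) (q (ρ ^ 2) (s ^ 2)) (qx (ρ ^ 2) (s ^ 2))
        (qy (ρ ^ 2) (s ^ 2)) ρ s A u v) :
    TQC fun F : E => (sz F F + l * sw F F) ^ α * (a * sz F F + c * sw F F) := by
  have h0 := (Pl.lin a c).rpow l α
  have h1 := (Pl.lin ((α + 1) * a) (α * c + l * a)).rpow l (α - 1)
  have h2 := (Pl.lin (α * l * a + c) ((α + 1) * l * c)).rpow l (α - 1)
  refine iso_tqc hl (w := fun x y => (x + l * y) ^ α * (a * x + c * y))
    (wx := fun x y => (x + l * y) ^ (α - 1) * (α * (a * x + c * y) + a * (x + l * y)))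
    (wy := fun x y => (x + l * y) ^ (α - 1) * (α * l * (a * x + c * y) + c * (x + l * y)))
    (wxx := fun x y => (x + l * y) ^ (α - 1 - 1) *
      (α * (α - 1) * (a * x + c * y) + 2 * α * a * (x + l * y)))
    (wxy := fun x y => (x + l * y) ^ (α - 1 - 1) *
      (α * (α - 1) * l * (a * x + c * y) + α * (a * l + c) * (x + l * y)))
    (wyy := fun x y => (x + l * y) ^ (α - 1 - 1) *
      (α * (α - 1) * l ^ 2 * (a * x + c * y) + 2 * α * l * c * (x + l * y)))
    cw (h0.congr (fun _ _ => rfl) (fun _ _ => by ring) (fun _ _ => by ring))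
    (h1.congr (fun _ _ => by ring) (fun _ _ => by ring) (fun _ _ => by ring))
    (h2.congr (fun _ _ => by ring) (fun _ _ => by ring) (fun _ _ => by ring))
    (hp.rpow l (α - 1 - m)) (hq.rpow l (α - 1 - m)) fun ρ s A u v hb => ?_
  have k := mul_nonneg (rpow_nonneg hb.le (α - 1 - m - 1)) (h ρ s A u v hb)
  rw [QP, ← QF_smul] at k
  set b := ρ ^ 2 + l * s ^ 2 with hbdef
  have e1 : b ^ (α - 1) = b ^ (α - 1 - m - 1) * b ^ (m + 1) := by
    rw [← rpow_natCast, ← rpow_add hb]; congr 1; push_cast; ring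
  have e2 : b ^ (α - 1 - 1) = b ^ (α - 1 - m - 1) * b ^ m := by
    rw [← rpow_natCast, ← rpow_add hb]; congr 1; ring
  have e3 : b ^ (α - 1 - m) = b ^ (α - 1 - m - 1) * b := by
    rw [← rpow_add_one hb.ne', sub_add_cancel]
  rw [e1, e2, e3]
  simpa only [mul_assoc] using k

theorem cont_fam {α l : ℝ} (a c : ℝ) (hα : 0 ≤ α) :
    Continuous fun F : E => (sz F F + l * sw F F) ^ α * (a * sz F F + c * sw F F) := by
  have h1 : Continuous fun F : E => sz F F := by unfold sz z1 z2; fun_prop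
  have h2 : Continuous fun F : E => sw F F := by unfold sw w1 w2; fun_prop
  exact ((h1.add (continuous_const.mul h2)).rpow_const fun _ => Or.inr hα).mul
    ((continuous_const.mul h1).add (continuous_const.mul h2))

theorem psd3 {a b c d e f : ℝ} (hf : 0 < f) (hm : 0 < d * f - e ^ 2)
    (hd : 0 ≤ a * (d * f - e ^ 2) - b * (b * f - c * e) + c * (b * e - c * d)) (x y z : ℝ) :
    0 ≤ a * x ^ 2 + 2 * b * x * y + 2 * c * x * z + d * y ^ 2 + 2 * e * y * z + f * z ^ 2 := by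
  have h := add_nonneg (add_nonneg (mul_nonneg hm.le (sq_nonneg (c * x + e * y + f * z)))
    (sq_nonneg ((d * f - e ^ 2) * y + (b * f - c * e) * x)))
    (mul_nonneg (mul_nonneg hf.le hd) (sq_nonneg x))
  refine nonneg_of_mul_nonneg_right (le_of_le_of_eq h ?_) (mul_pos hf hm)
  ring

end Pool.Agent.MP_515557_an.H14
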