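import Pool.Agent.MP_515557_an.H11.Iso

/-! The heat flow criterion for integrands that are smooth away from the origin. -/

set_option autoImplicit false

open MeasureTheory Set Real Filter Topology

namespace Pool.Agent.MP_515557_an.H14

open Pool.Agent.MP_515557_an.H11

section criterion

variable (W : E → ℝ) (P : E → E → ℝ) (H : E → E → E → ℝ) (Θ : E → E → ℝ) (K : E → E → E → ℝ)

/-- The data of a heat flow certificate away from the origin. -/
structure Cert0 : Prop where
  cW : Continuous W
  cP : ContinuousOn (fun p : E × E => P p.1 p.2) {p | p.1 ≠ 0}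
  cH : ContinuousOn (fun p : E × E × E => H p.1 p.2.1 p.2.2) {p | p.1 ≠ 0}
  cΘ : ContinuousOn (fun p : E × E => Θ p.1 p.2) {p | p.1 ≠ 0}
  cK : ContinuousOn (fun p : E × E × E => K p.1 p.2.1 p.2.2) {p | p.1 ≠ 0}
  dW : ∀ (γ : ℝ → E) (γ' : E) (t : ℝ), γ t ≠ 0 → HasDerivAt γ γ' t →
    HasDerivAt (fun s => W (γ s)) (P (γ t) γ') t
  dP : ∀ (γ η : ℝ → E) (γ' η' : E) (t : ℝ), γ t ≠ 0 → HasDerivAt γ γ' t → HasDerivAt η η' t →
    HasDerivAt (fun s => P (γ s) (η s)) (H (γ t) γ' (η t) + P (γ t) η') t
  dΘ : ∀ (γ η : ℝ → E) (γ' η' : E) (t : ℝ), γ t ≠ 0 → HasDerivAt γ γ' t → HasDerivAt η η' t →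
    HasDerivAt (fun s => Θ (γ s) (η s)) (K (γ t) γ' (η t) + Θ (γ t) η') t
  addP : ∀ F X Y, P F (X + Y) = P F X + P F Y
  ineq : ∀ F X Y : E, F ≠ 0 → (∀ r, X r 1 = Y r 0) →
    0 ≤ H F X X + H F Y Y + K F X Y - K F Y X

variable {W P H Θ K}

theorem dissipation0 (h : Cert0 W P H Θ K) {ι : Type} [Fintype ι] (R : ℝ) (hR : 0 < R)
    (k : ι → Fin 2 → ℤ) (φ : ι → ℝ) (M : ι → E)
    (hM : ∀ i r, (k i 0 : ℝ) * M i r 1 = (k i 1 : ℝ) * M i r 0) (F₀ : E)
    (hne : ∀ x, F₀ + trig R k φ M x ≠ 0) :
    ∫ x in Q R, P (F₀ + trig R k φ M x)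
      (trig R k φ (fun i => (-(lam 1 0 1 R (k i))) • M i) x) ≤ 0 := by
  set F : V → E := fun x => F₀ + trig R k φ M x with hF
  set X : Fin 2 → V → E := fun j =>
    trig R k (fun i => φ i + π / 2) (fun i => ((k i j : ℝ) / R) • M i) with hX
  set Y : Fin 2 → Fin 2 → V → E := fun j l =>
    trig R k (fun i => φ i + π / 2 + π / 2)
      (fun i => ((k i l : ℝ) / R) • ((k i j : ℝ) / R) • M i) with hY
  have cF : Continuous F := continuous_const.add (continuous_trig R k φ M)
  have cX : ∀ j, Continuous (X j) := fun j => continuous_trig _ _ _ _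
  have cY : ∀ j l, Continuous (Y j l) := fun j l => continuous_trig _ _ _ _
  have dF : ∀ j x, HasDerivAt (fun s : ℝ => F (x + s • ev j)) (X j x) 0 := fun j x =>
    (trig_deriv R k φ M j x).const_add F₀
  have dX : ∀ j l x, HasDerivAt (fun s : ℝ => X j (x + s • ev l)) (Y j l x) 0 := fun j l x =>
    trig_deriv R k _ _ l x
  have pF : ∀ j x, F (x + (2 * π * R) • ev j) = F x := fun j x => by
    simp only [hF, trig_per R hR]
  have pX : ∀ l j x, X l (x + (2 * π * R) • ev j) = X l x := fun l j x => trig_per R hR _ _ _ j x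
  have sY : Y 0 1 = Y 1 0 := by
    simp only [hY]
    congr 1
    ext i r c
    simp only [Pi.smul_apply, smul_eq_mul]
    ring
  have hcomp : ∀ x r, X 0 x r 1 = X 1 x r 0 := by
    intro x r
    simp only [hX, trig, Finset.sum_apply, Pi.smul_apply, smul_eq_mul]
    refine Finset.sum_congr rfl fun i _ => ?_
    have := hM i r
    congr 1
    field_simp
    linarith
  have hL : ∀ x, trig R k φ (fun i => (-(lam 1 0 1 R (k i))) • M i) x
      = Y 0 0 x + Y 1 1 x := by
    intro x
    ext r c
    simp only [hY, trig, Finset.sum_apply, Pi.smul_apply, smul_eq_mul, Pi.add_apply,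
      ← Finset.sum_add_distrib]
    refine Finset.sum_congr rfl fun i _ => ?_
    have e : ph R (k i) x + (φ i + π / 2 + π / 2) = ph R (k i) x + φ i + π := by ring
    rw [e, cos_add_pi, lam]
    ring
  have k2 : ∀ {A : E → E → ℝ}, ContinuousOn (fun p : E × E => A p.1 p.2) {p | p.1 ≠ 0} →
      ∀ {g : V → E}, Continuous g → Continuous fun x => A (F x) (g x) := fun hA g hg =>
    hA.comp_continuous (cF.prodMk hg) fun x => hne x
  have k3 : ∀ {A : E → E → E → ℝ},
      ContinuousOn (fun p : E × E × E => A p.1 p.2.1 p.2.2) {p | p.1 ≠ 0} →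
      ∀ {g l : V → E}, Continuous g → Continuous l → Continuous fun x => A (F x) (g x) (l x) :=
    fun hA g l hg hl => hA.comp_continuous (cF.prodMk (hg.prodMk hl)) fun x => hne x
  have c0 : Continuous fun x => H (F x) (X 0 x) (X 0 x)
      + P (F x) (Y 0 0 x) + (K (F x) (X 0 x) (X 1 x) + Θ (F x) (Y 1 0 x)) :=
    ((k3 h.cH (cX 0) (cX 0)).add (k2 h.cP (cY 0 0))).add
      ((k3 h.cK (cX 0) (cX 1)).add (k2 h.cΘ (cY 1 0)))
  have c1 : Continuous fun x => H (F x) (X 1 x) (X 1 x)
      + P (F x) (Y 1 1 x) - (K (F x) (X 1 x) (X 0 x) + Θ (F x) (Y 0 1 x)) :=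
    ((k3 h.cH (cX 1) (cX 1)).add (k2 h.cP (cY 1 1))).sub
      ((k3 h.cK (cX 1) (cX 0)).add (k2 h.cΘ (cY 0 1)))
  have hz : ∀ (j : Fin 2) x, (fun s : ℝ => F (x + s • ev j)) 0 ≠ 0 := fun j x => hne _
  have z0 := int_deriv_zero R hR 0
    (fun x => P (F x) (X 0 x) + Θ (F x) (X 1 x)) _ c0
    (fun x => by
      have h1 := h.dP _ _ _ _ 0 (hz 0 x) (dF 0 x) (dX 0 0 x)
      have h2 := h.dΘ _ _ _ _ 0 (hz 0 x) (dF 0 x) (dX 1 0 x)
      simpa using h1.fun_add h2)
    (fun x => by simp only [pF, pX])
  have z1 := int_deriv_zero R hR 1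
    (fun x => P (F x) (X 1 x) - Θ (F x) (X 0 x)) _ c1
    (fun x => by
      have h1 := h.dP _ _ _ _ 0 (hz 1 x) (dF 1 x) (dX 1 1 x)
      have h2 := h.dΘ _ _ _ _ 0 (hz 1 x) (dF 1 x) (dX 0 1 x)
      simpa using h1.fun_sub h2)
    (fun x => by simp only [pF, pX])
  have hsum := integral_add (integrableOn_Q R c0) (integrableOn_Q R c1)
  rw [z0, z1, add_zero] at hsum
  refine le_of_le_of_eq ?_ hsum
  refine setIntegral_mono_on ?_ ((integrableOn_Q R c0).add (integrableOn_Q R c1))
    (measurableSet_Q R) fun x _ => ?_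
  · exact integrableOn_Q R (k2 h.cP (continuous_trig _ _ _ _))
  · rw [hL, h.addP, sY]
    have := h.ineq (F x) (X 0 x) (X 1 x) (hne x) (hcomp x)
    linarith

theorem Cert0.generic (h : Cert0 W P H Θ K) (R : ℝ) (hR : 0 < R) (ι : Type) [Fintype ι]
    (k : ι → Fin 2 → ℤ) (φ : ι → ℝ) (a : ι → V) (F₀ : E)
    (hne : ∀ (t : ℝ) (x : V), F₀ + trig R k φ
      (fun i => exp (-(lam 1 0 1 R (k i)) * t) • (fun r c => a i r * (k i c : ℝ) : E)) x ≠ 0) :
    W F₀ * (volume (Q R)).toReal ≤
      ∫ x in Q R, W (F₀ + trig R k φ (fun i r c => a i r * (k i c : ℝ)) x) := by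
  set M : ι → E := fun i r c => a i r * (k i c : ℝ) with hMdef
  set l : ι → ℝ := fun i => lam 1 0 1 R (k i) with hl
  set F : ℝ → V → E := fun t x => F₀ + trig R k φ (fun i => exp (-(l i) * t) • M i) x with hF
  set G : ℝ → V → E := fun t x =>
    trig R k φ (fun i => (-(l i)) • exp (-(l i) * t) • M i) x with hG
  have hne' : ∀ t x, F t x ≠ 0 := hne
  have cF : Continuous fun p : ℝ × V => F p.1 p.2 := by
    simp only [hF, trig]
    refine continuous_const.add (continuous_finsetSum _ fun i _ => ?_)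
    have := continuous_ph R (k i)
    fun_prop
  have cG : Continuous fun p : ℝ × V => G p.1 p.2 := by
    simp only [hG, trig]
    refine continuous_finsetSum _ fun i _ => ?_
    have := continuous_ph R (k i)
    fun_prop
  have dF : ∀ x t, HasDerivAt (fun s => F s x) (G t x) t := by
    intro x t
    simp only [hF, hG, trig]
    refine HasDerivAt.const_add _ (HasDerivAt.fun_sum fun i _ => ?_)
    have h1 : HasDerivAt (fun s : ℝ => -(l i) * s) (-(l i)) t := by
      simpa using (hasDerivAt_id t).const_mul (-(l i))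
    have h2 := ((h1.exp).smul_const (M i)).fun_const_smul (cos (ph R (k i) x + φ i))
    rw [smul_smul (-(l i)), mul_comm (-(l i))]
    exact h2
  have cPG : Continuous fun p : ℝ × V => P (F p.1 p.2) (G p.1 p.2) :=
    h.cP.comp_continuous (cF.prodMk cG) fun p => hne' p.1 p.2
  have mono : ∀ T : ℝ, 0 ≤ T → ∫ x in Q R, W (F T x) ≤ ∫ x in Q R, W (F 0 x) := by
    intro T hT
    have cW : ∀ t, Continuous fun x => W (F t x) := fun t =>
      h.cW.comp (continuous_const.add (continuous_trig _ _ _ _))
    have e1 : ∀ x, W (F T x) - W (F 0 x) = ∫ t in (0 : ℝ)..T, P (F t x) (G t x) := by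
      intro x
      rw [intervalIntegral.integral_eq_sub_of_hasDerivAt
        (fun t _ => h.dW (fun s => F s x) (G t x) t (hne' t x) (dF x t))]
      exact (cPG.comp (Continuous.prodMk_left x)).intervalIntegrable _ _
    have e2 : ∫ x in Q R, (W (F T x) - W (F 0 x)) =
        ∫ t in (0 : ℝ)..T, ∫ x in Q R, P (F t x) (G t x) := by
      simp_rw [e1]
      symm
      apply intervalIntegral_integral_swap (f := fun t x => P (F t x) (G t x))
      rw [Measure.prod_restrict, uIoc_of_le hT]
      have : IntegrableOn (fun p : ℝ × V => P (F p.1 p.2) (G p.1 p.2)) (Icc 0 T ×ˢ Q R)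
          (volume.prod volume) :=
        cPG.continuousOn.integrableOn_compact (isCompact_Icc.prod (isCompact_Q R))
      exact this.mono_set (prod_mono Ioc_subset_Icc_self subset_rfl)
    have e3 : ∫ t in (0 : ℝ)..T, ∫ x in Q R, P (F t x) (G t x) ≤ 0 := by
      rw [intervalIntegral.integral_of_le hT]
      refine setIntegral_nonpos measurableSet_Ioc fun t _ => ?_
      refine dissipation0 h R hR k φ (fun i => exp (-(l i) * t) • M i) (fun i r => ?_) F₀
        (hne' t)
      simp only [hMdef, Pi.smul_apply, smul_eq_mul]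
      ring
    rw [integral_sub (integrableOn_Q R (cW T)) (integrableOn_Q R (cW 0))] at e2
    linarith
  have lim : Tendsto (fun T : ℝ => ∫ x in Q R, W (F T x)) atTop
      (𝓝 (∫ _x in Q R, W F₀)) := by
    have hcoef : ∀ i, Tendsto (fun T : ℝ => exp (-(l i) * T) • M i) atTop (𝓝 0) := by
      intro i
      by_cases hk : (k i 0 : ℝ) / R ≠ 0 ∨ (k i 1 : ℝ) / R ≠ 0
      · have hp : 0 < l i := by
          simp only [hl, lam]
          rcases hk with hk | hk
          · have := sq_pos_of_ne_zero hk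
            nlinarith [sq_nonneg ((k i 1 : ℝ) / R)]
          · have := sq_pos_of_ne_zero hk
            nlinarith [sq_nonneg ((k i 0 : ℝ) / R)]
        have h1 : Tendsto (fun T : ℝ => -(l i) * T) atTop atBot :=
          tendsto_id.const_mul_atTop_of_neg (by linarith)
        simpa using (tendsto_exp_atBot.comp h1).smul_const (M i)
      · push Not at hk
        have h0 : (k i 0 : ℝ) = 0 := by
          have := hk.1; field_simp at this; simpa using this
        have h1 : (k i 1 : ℝ) = 0 := by
          have := hk.2; field_simp at this; simpa using this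
        have : M i = 0 := by
          ext r c
          fin_cases c <;> simp [hMdef, h0, h1]
        simp [this]
    have cI : Continuous fun N : ι → E => ∫ x in Q R, W (F₀ + trig R k φ N x) := by
      refine continuous_parametric_integral_of_continuous ?_ (isCompact_Q R)
      refine h.cW.comp (continuous_const.add ?_)
      simp only [trig]
      refine continuous_finsetSum _ fun i _ => ?_
      have := continuous_ph R (k i)
      fun_prop
    have h2 := (cI.tendsto 0).comp (tendsto_pi_nhds.2 hcoef)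
    simpa [Function.comp_def, trig, hF] using h2
  have fin := le_of_tendsto lim (Filter.eventually_atTop.2 ⟨0, mono⟩)
  simp only [integral_const, measureReal_restrict_apply_univ, smul_eq_mul] at fin
  simp only [hF, mul_zero, exp_zero, one_smul] at fin
  rw [mul_comm]
  exact fin

theorem Cert0.tqc (h : Cert0 W P H Θ K) : TQC W := by
  intro R hR ι _ k φ a F₀
  set M : ι → E := fun i r c => a i r * (k i c : ℝ) with hMdef
  set G : ℝ × V → E := fun p => -trig R k φ
      (fun i => exp (-(lam 1 0 1 R (k i)) * p.1) • M i) p.2 with hG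
  have dG : ContDiff ℝ 1 G := by
    simp only [hG, trig, ph]
    refine ContDiff.neg (ContDiff.sum fun i _ => ?_)
    fun_prop
  have hd : Dense (range G)ᶜ := by
    refine dG.dense_compl_range_of_finrank_lt_finrank ?_
    simp [Module.finrank_pi_fintype]
  have cl : IsClosed {F : E | W F * (volume (Q R)).toReal ≤
      ∫ x in Q R, W (F + trig R k φ M x)} := by
    refine isClosed_le (h.cW.mul continuous_const) ?_
    refine continuous_parametric_integral_of_continuous ?_ (isCompact_Q R)
    exact h.cW.comp (continuous_fst.add ((continuous_trig R k φ M).comp continuous_snd))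
  have hsub : (range G)ᶜ ⊆ {F : E | W F * (volume (Q R)).toReal ≤
      ∫ x in Q R, W (F + trig R k φ M x)} := by
    intro F hF
    refine h.generic R hR ι k φ a F fun t x hz => hF ⟨(t, x), ?_⟩
    simp only [hG]
    exact (eq_neg_of_add_eq_zero_left hz).symm
  exact (cl.closure_subset_iff.2 hsub) (hd F₀)

end criterion

end Pool.Agent.MP_515557_an.H14
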