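import Pool.Agent.MP_515557_an.H14.Refl

/-! Kronecker substitution: the coefficient test of `cell` is read off from one large integer. -/

set_option autoImplicit false

namespace Pool.Agent.MP_515557_an.H14

structure HomZ {T : Type} (O : Ops T) (ev : T → ℤ) : Prop where
  zero : ev O.zero = 0
  cst : ∀ z, ev (O.cst z) = z
  add : ∀ a b, ev (O.add a b) = ev a + ev b
  mul : ∀ a b, ev (O.mul a b) = ev a * ev b

structure Nrm {T : Type} (O : Ops T) (nu : T → ℤ) : Prop where
  pos : ∀ a, 0 ≤ nu a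
  zero : nu O.zero = 0
  cst : ∀ z, nu (O.cst z) = |z|
  add : ∀ a b, nu (O.add a b) ≤ nu a + nu b
  mul : ∀ a b, nu (O.mul a b) ≤ nu a * nu b

def levZ {T : Type} (ev : T → ℤ) (x : ℤ) : List T → ℤ
  | [] => 0
  | a :: p => ev a + x * levZ ev x p

theorem homZ_int : HomZ intOps id := ⟨rfl, fun _ => rfl, fun _ _ => rfl, fun _ _ => rfl⟩

theorem nrm_int : Nrm intOps fun z => |z| :=
  ⟨fun a => abs_nonneg a, rfl, fun _ => rfl, fun a b => abs_add_le a b, fun a b => (abs_mul a b).le⟩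

section
variable {T : Type} {O : Ops T} {ev : T → ℤ}

theorem levZ_add (h : HomZ O ev) (x : ℤ) :
    ∀ p q, levZ ev x (ladd O p q) = levZ ev x p + levZ ev x q
  | [], q => by simp [ladd, levZ]
  | a :: p, [] => by simp [ladd, levZ]
  | a :: p, b :: q => by simp only [ladd, levZ, h.add, levZ_add h x p q]; ring

theorem levZ_smul (h : HomZ O ev) (x : ℤ) (a : T) :
    ∀ q, levZ ev x (lsmul O a q) = ev a * levZ ev x q
  | [] => by simp [lsmul, levZ]
  | b :: q => by simp only [lsmul, levZ, h.mul, levZ_smul h x a q]; ring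

theorem levZ_mul (h : HomZ O ev) (x : ℤ) :
    ∀ p q, levZ ev x (lmul O p q) = levZ ev x p * levZ ev x q
  | [], q => by simp [lmul, levZ]
  | a :: p, q => by
    simp only [lmul, levZ, levZ_add h, levZ_smul h, h.zero, levZ_mul h x p q]; ring

theorem HomZ.poly (h : HomZ O ev) (x : ℤ) : HomZ O.poly (levZ ev x) :=
  ⟨rfl, fun z => by simp [Ops.poly, levZ, h.cst], levZ_add h x, levZ_mul h x⟩

theorem levZ_pos (h : ∀ a, 0 ≤ ev a) {x : ℤ} (hx : 0 ≤ x) : ∀ p, 0 ≤ levZ ev x p
  | [] => le_rfl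
  | a :: p => add_nonneg (h a) (mul_nonneg hx (levZ_pos h hx p))

theorem nrm_add (h : Nrm O ev) {x : ℤ} (hx : 0 ≤ x) :
    ∀ p q, levZ ev x (ladd O p q) ≤ levZ ev x p + levZ ev x q
  | [], q => by simp [ladd, levZ]
  | a :: p, [] => by simp [ladd, levZ]
  | a :: p, b :: q => by
    have h1 := mul_le_mul_of_nonneg_left (nrm_add h hx p q) hx
    have h2 := h.add a b
    simp only [ladd, levZ]
    linarith

theorem nrm_smul (h : Nrm O ev) {x : ℤ} (hx : 0 ≤ x) (a : T) :
    ∀ q, levZ ev x (lsmul O a q) ≤ ev a * levZ ev x q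
  | [] => by simp [lsmul, levZ]
  | b :: q => by
    have h1 := mul_le_mul_of_nonneg_left (nrm_smul h hx a q) hx
    have h2 := h.mul a b
    simp only [lsmul, levZ]
    linarith

theorem nrm_mul (h : Nrm O ev) {x : ℤ} (hx : 0 ≤ x) :
    ∀ p q, levZ ev x (lmul O p q) ≤ levZ ev x p * levZ ev x q
  | [], q => by simp [lmul, levZ]
  | a :: p, q => by
    have h1 := mul_le_mul_of_nonneg_left (nrm_mul h hx p q) hx
    have h2 := nrm_smul h hx a q
    have h3 := nrm_add h hx (lsmul O a q) (O.zero :: lmul O p q)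
    simp only [lmul, levZ, h.zero] at h3 ⊢
    linarith

theorem Nrm.poly (h : Nrm O ev) {x : ℤ} (hx : 0 ≤ x) : Nrm O.poly (levZ ev x) :=
  ⟨levZ_pos h.pos hx, rfl, fun z => by simp [Ops.poly, levZ, h.cst], nrm_add h hx, nrm_mul h hx⟩

theorem Ex.run_hom (h : HomZ O ev) (env : Nat → T) (envZ : Nat → ℤ) (he : ∀ i, ev (env i) = envZ i) :
    ∀ e : Ex, ev (e.run O env) = e.run intOps envZ
  | .v i => he i
  | .c z => h.cst z
  | .a x y => by
    rw [Ex.run, h.add, run_hom h env envZ he x, run_hom h env envZ he y]; rfl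
  | .m x y => by
    rw [Ex.run, h.mul, run_hom h env envZ he x, run_hom h env envZ he y]; rfl

/-- Arithmetic with the constants replaced by their absolute values. -/
def absOps : Ops Int := ⟨0, fun z => z.natAbs, Int.add, Int.mul, fun _ => true⟩

theorem Ex.run_nrm (h : Nrm O ev) (env : Nat → T) (envZ : Nat → ℤ) (he : ∀ i, ev (env i) ≤ envZ i) :
    ∀ e : Ex, ev (e.run O env) ≤ e.run absOps envZ
  | .v i => he i
  | .c z => by rw [Ex.run, h.cst]; exact (Int.natCast_natAbs z).ge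
  | .a x y => (h.add _ _).trans (add_le_add (run_nrm h env envZ he x) (run_nrm h env envZ he y))
  | .m x y => (h.mul _ _).trans (mul_le_mul (run_nrm h env envZ he x) (run_nrm h env envZ he y)
      (h.pos _) ((h.pos _).trans (run_nrm h env envZ he x)))

theorem le_levZ (h : ∀ a, 0 ≤ ev a) : ∀ (p : List T) (t : T), t ∈ p → ev t ≤ levZ ev 1 p
  | a :: p, t, ht => by
    have h1 := levZ_pos h zero_le_one p
    rcases List.mem_cons.1 ht with rfl | ht
    · simp only [levZ]; linarith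
    · have h2 := le_levZ h p t ht
      have h3 := h a
      simp only [levZ]; linarith

theorem abs_levZ {x : ℤ} (hx : 0 ≤ x) : ∀ p : List ℤ, |levZ id x p| ≤ levZ (fun z => |z|) x p
  | [] => le_rfl
  | a :: p => by
    have h1 := mul_le_mul_of_nonneg_left (abs_levZ hx p) hx
    have h2 := abs_add_le a (x * levZ id x p)
    rw [abs_mul, abs_of_nonneg hx] at h2
    simp only [levZ, id]
    linarith

end

/-- All digits of `K` in base `2 b + 1` are at most `b` and pass the test `f`. -/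
def dig (b : Nat) (f : Nat → Bool) : Nat → Nat → Bool
  | 0, K => Nat.beq K 0
  | n + 1, K => Nat.beq K 0 ||
      (Nat.ble (K % (2 * b + 1)) b && f (K % (2 * b + 1)) && dig b f n (K / (2 * b + 1)))

theorem dig_zero (b : Nat) (f : Nat → Bool) : ∀ n, dig b f n 0 = true
  | 0 => rfl
  | _ + 1 => rfl

theorem dig_step {b : Nat} {f : Nat → Bool} (h0 : f 0 = true) {n K : Nat} (h : dig b f n K = true) :
    ∃ d q m : Nat, K = d + (2 * b + 1) * q ∧ d ≤ b ∧ f d = true ∧ dig b f m q = true := by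
  by_cases hK : K = 0
  · exact ⟨0, 0, 0, by simp [hK], Nat.zero_le _, h0, rfl⟩
  · match n, h with
    | 0, h => exact absurd (Nat.eq_of_beq_eq_true h) hK
    | n + 1, h =>
      simp only [dig, Bool.or_eq_true, Bool.and_eq_true, Nat.beq_eq, Nat.ble_eq, hK, false_or] at h
      exact ⟨_, _, n, (Nat.mod_add_div K _).symm, h.1.1, h.1.2, h.2⟩

theorem dig_sound {T : Type} {O : Ops T} {φ : T → ℤ} {b : Nat} {f : Nat → Bool} (h0 : f 0 = true) :
    ∀ (c : List T) (n K : Nat), (∀ t ∈ c, |φ t| ≤ b ∧ ∀ d : Nat, φ t = d → f d = true → O.nn t = true) →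
      levZ φ (2 * b + 1) c = K → dig b f n K = true → lnn O c = true
  | [], _, _, _, _, _ => rfl
  | t :: c, n, K, hc, hK, hd => by
    obtain ⟨d, q, m, e, hb, hf, hq⟩ := dig_step h0 hd
    obtain ⟨h1, h2⟩ := hc t List.mem_cons_self
    have e' : (K : ℤ) = d + (2 * b + 1) * q := by exact_mod_cast e
    have hb' : (d : ℤ) ≤ b := by exact_mod_cast hb
    have hd0 : (0 : ℤ) ≤ d := Int.natCast_nonneg d
    have hb0 : (0 : ℤ) ≤ b := Int.natCast_nonneg b
    simp only [levZ] at hK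
    rw [abs_le] at h1
    have k : levZ φ (2 * b + 1) c = q := by
      rcases lt_trichotomy (levZ φ (2 * b + 1) c) q with h | h | h
      · nlinarith
      · exact h
      · nlinarith
    have k2 : φ t = d := by rw [k] at hK; linarith
    simp only [lnn, Bool.and_eq_true]
    exact ⟨h2 d k2 hf, dig_sound h0 c m q (fun s hs => hc s (List.mem_cons_of_mem _ hs)) k hq⟩

def kb1 (e : Ex) (r0 t0 r1 t1 h0 k0 h1 k1 : Int) : Nat :=
  (e.run absOps (env4 (r0.natAbs + r1.natAbs) (t0.natAbs + t1.natAbs) (h0.natAbs + h1.natAbs)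
    (k0.natAbs + k1.natAbs))).toNat

def kb2 (e : Ex) (r0 t0 r1 t1 h0 k0 h1 k1 : Int) (b : Nat) : Nat :=
  (e.run absOps (env4 (r0.natAbs + r1.natAbs) (t0.natAbs + t1.natAbs)
    (h0.natAbs + (2 * b + 1) * h1.natAbs) (k0.natAbs + (2 * b + 1) * k1.natAbs))).toNat

def kfin (b c : Nat) (K : Int) : Bool :=
  decide (0 ≤ K) && dig c (fun d => dig b (fun _ => true) 1000 d) 1000 K.toNat

def kmid (e : Ex) (r0 t0 r1 t1 h0 k0 h1 k1 : Int) (b c : Nat) : Bool :=
  kfin b c (e.run intOps (env4 (r0 + (2 * c + 1) * r1) (t0 + (2 * c + 1) * t1)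
    (h0 + (2 * b + 1) * h1) (k0 + (2 * b + 1) * k1)))

/-- The test `cell` by Kronecker substitution. -/
def cellK (e : Ex) (r0 t0 r1 t1 h0 k0 h1 k1 : Int) : Bool :=
  kmid e r0 t0 r1 t1 h0 k0 h1 k1 (kb1 e r0 t0 r1 t1 h0 k0 h1 k1)
    (kb2 e r0 t0 r1 t1 h0 k0 h1 k1 (kb1 e r0 t0 r1 t1 h0 k0 h1 k1))

theorem cell_of_cellK {e : Ex} {r0 t0 r1 t1 h0 k0 h1 k1 : Int}
    (h : cellK e r0 t0 r1 t1 h0 k0 h1 k1 = true) : cell e r0 t0 r1 t1 h0 k0 h1 k1 = true := by
  set b := kb1 e r0 t0 r1 t1 h0 k0 h1 k1 with hb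
  set c := kb2 e r0 t0 r1 t1 h0 k0 h1 k1 b with hc
  set env : Nat → List (List Int) := env4 [[r0], [r1]] [[t0], [t1]] [[h0, h1]] [[k0, k1]] with henv
  set P := e.run intOps.poly.poly env with hP
  have hB : (0 : ℤ) ≤ 2 * b + 1 := by positivity
  have n1 : levZ (levZ (fun z => |z|) 1) 1 P ≤ b := by
    refine (Ex.run_nrm ((nrm_int.poly zero_le_one).poly zero_le_one) env _ (fun i => ?_) e).trans
      (Int.self_le_toNat _)
    match i with
    | 0 => simp [henv, env4, levZ]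
    | 1 => simp [henv, env4, levZ]
    | 2 => simp [henv, env4, levZ]
    | _ + 3 => simp [henv, env4, levZ]
  have n2 : levZ (levZ (fun z => |z|) (2 * b + 1)) 1 P ≤ c := by
    refine (Ex.run_nrm ((nrm_int.poly hB).poly zero_le_one) env _ (fun i => ?_) e).trans
      (Int.self_le_toNat _)
    match i with
    | 0 => simp [henv, env4, levZ]
    | 1 => simp [henv, env4, levZ]
    | 2 => simp [henv, env4, levZ]
    | _ + 3 => simp [henv, env4, levZ]
  have hK := Ex.run_hom ((homZ_int.poly (2 * b + 1)).poly (2 * c + 1)) env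
    (env4 (r0 + (2 * c + 1) * r1) (t0 + (2 * c + 1) * t1)
      (h0 + (2 * b + 1) * h1) (k0 + (2 * b + 1) * k1)) (fun i => by
      match i with
      | 0 => simp [henv, env4, levZ]
      | 1 => simp [henv, env4, levZ]
      | 2 => simp [henv, env4, levZ]
      | _ + 3 => simp [henv, env4, levZ]) e
  simp only [cellK, kmid, kfin, Bool.and_eq_true, decide_eq_true_eq] at h
  rw [← hb, ← hc, ← hK] at h
  refine dig_sound (O := intOps.poly) (φ := levZ id (2 * b + 1)) (dig_zero _ _ _) P 1000 _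
    (fun t ht => ⟨?_, fun d hd hf => ?_⟩) (Int.toNat_of_nonneg h.1).symm h.2
  · exact (abs_levZ hB t).trans ((le_levZ (levZ_pos (fun z => abs_nonneg z) hB) P t ht).trans n2)
  · refine dig_sound (O := intOps) (φ := id) rfl t 1000 d (fun z hz => ⟨?_, fun d hd _ => ?_⟩) hd hf
    · exact (le_levZ (fun z => abs_nonneg z) t z hz).trans
        ((le_levZ (levZ_pos (fun z => abs_nonneg z) zero_le_one) P t ht).trans n1)
    · have : (0 : ℤ) ≤ z := by rw [show z = d from hd]; exact Int.natCast_nonneg d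
      exact decide_eq_true this

theorem cellK_sound {e : Ex} (hA : e.hom wA = true) (hB : e.hom wB = true)
    {r0 t0 r1 t1 h0 k0 h1 k1 : Int} (h : cellK e r0 t0 r1 t1 h0 k0 h1 k1 = true)
    {m n m' n' : ℝ} (hm : 0 ≤ m) (hn : 0 ≤ n) (hm' : 0 ≤ m') (hn' : 0 ≤ n') :
    0 ≤ e.ev (env4 (r0 * m + r1 * n) (t0 * m + t1 * n) (h0 * m' + h1 * n') (k0 * m' + k1 * n')) :=
  cell_sound hA hB (cell_of_cellK h) hm hn hm' hn'

end Pool.Agent.MP_515557_an.H14
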