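import Mathlib

/-! A verified test for nonnegativity of integer polynomials on products of plane cones. -/

set_option autoImplicit false

namespace Pool.Agent.MP_515557_an.H14

/-- Arithmetic on a type of codes. -/
structure Ops (T : Type) where
  zero : T
  cst : Int → T
  add : T → T → T
  mul : T → T → T
  nn : T → Bool

def intOps : Ops Int := ⟨0, fun z => z, Int.add, Int.mul, fun z => decide (0 ≤ z)⟩

def ladd {T : Type} (O : Ops T) : List T → List T → List T
  | [], q => q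
  | a :: p, [] => a :: p
  | a :: p, b :: q => O.add a b :: ladd O p q

def lsmul {T : Type} (O : Ops T) (a : T) : List T → List T
  | [] => []
  | b :: q => O.mul a b :: lsmul O a q

def lmul {T : Type} (O : Ops T) : List T → List T → List T
  | [], _ => []
  | a :: p, q => ladd O (lsmul O a q) (O.zero :: lmul O p q)

def lnn {T : Type} (O : Ops T) : List T → Bool
  | [] => true
  | a :: p => O.nn a && lnn O p

def Ops.poly {T : Type} (O : Ops T) : Ops (List T) :=
  ⟨[], fun z => [O.cst z], ladd O, lmul O, lnn O⟩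

structure Hom {T : Type} (O : Ops T) (ev : T → ℝ) : Prop where
  zero : ev O.zero = 0
  cst : ∀ z, ev (O.cst z) = z
  add : ∀ a b, ev (O.add a b) = ev a + ev b
  mul : ∀ a b, ev (O.mul a b) = ev a * ev b
  nn : ∀ a, O.nn a = true → 0 ≤ ev a

theorem hom_int : Hom intOps fun z => (z : ℝ) :=
  ⟨by simp [intOps], fun _ => rfl, fun a b => Int.cast_add a b, fun a b => Int.cast_mul a b,
    fun a h => by
      have : 0 ≤ a := of_decide_eq_true h
      exact_mod_cast this⟩

def lev {T : Type} (ev : T → ℝ) (x : ℝ) : List T → ℝ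
  | [] => 0
  | a :: p => ev a + x * lev ev x p

theorem lev_add {T : Type} {O : Ops T} {ev : T → ℝ} (h : Hom O ev) (x : ℝ) :
    ∀ p q, lev ev x (ladd O p q) = lev ev x p + lev ev x q
  | [], q => by simp [ladd, lev]
  | a :: p, [] => by simp [ladd, lev]
  | a :: p, b :: q => by simp only [ladd, lev, h.add, lev_add h x p q]; ring

theorem lev_smul {T : Type} {O : Ops T} {ev : T → ℝ} (h : Hom O ev) (x : ℝ) (a : T) :
    ∀ q, lev ev x (lsmul O a q) = ev a * lev ev x q
  | [] => by simp [lsmul, lev]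
  | b :: q => by simp only [lsmul, lev, h.mul, lev_smul h x a q]; ring

theorem lev_mul {T : Type} {O : Ops T} {ev : T → ℝ} (h : Hom O ev) (x : ℝ) :
    ∀ p q, lev ev x (lmul O p q) = lev ev x p * lev ev x q
  | [], q => by simp [lmul, lev]
  | a :: p, q => by
    simp only [lmul, lev, lev_add h, lev_smul h, h.zero, lev_mul h x p q]; ring

theorem lev_nn {T : Type} {O : Ops T} {ev : T → ℝ} (h : Hom O ev) {x : ℝ} (hx : 0 ≤ x) :
    ∀ p, lnn O p = true → 0 ≤ lev ev x p
  | [], _ => le_rfl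
  | a :: p, hp => by
    simp only [lnn, Bool.and_eq_true] at hp
    exact add_nonneg (h.nn a hp.1) (mul_nonneg hx (lev_nn h hx p hp.2))

theorem Hom.poly {T : Type} {O : Ops T} {ev : T → ℝ} (h : Hom O ev) {x : ℝ} (hx : 0 ≤ x) :
    Hom O.poly (lev ev x) :=
  ⟨rfl, fun z => by simp [Ops.poly, lev, h.cst], lev_add h x, lev_mul h x, lev_nn h hx⟩

/-- Polynomial expressions. -/
inductive Ex where
  | v (i : Nat) : Ex
  | c (z : Int) : Ex
  | a (x y : Ex) : Ex
  | m (x y : Ex) : Ex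

def Ex.run {T : Type} (O : Ops T) (env : Nat → T) : Ex → T
  | .v i => env i
  | .c z => O.cst z
  | .a x y => O.add (run O env x) (run O env y)
  | .m x y => O.mul (run O env x) (run O env y)

def Ex.ev (env : Nat → ℝ) : Ex → ℝ
  | .v i => env i
  | .c z => z
  | .a x y => ev env x + ev env y
  | .m x y => ev env x * ev env y

theorem Ex.ev_run {T : Type} {O : Ops T} {ev : T → ℝ} (h : Hom O ev) (env : Nat → T) :
    ∀ e : Ex, ev (e.run O env) = e.ev fun i => ev (env i)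
  | .v _ => rfl
  | .c z => h.cst z
  | .a x y => by simp only [Ex.run, Ex.ev, h.add, ev_run h env x, ev_run h env y]
  | .m x y => by simp only [Ex.run, Ex.ev, h.mul, ev_run h env x, ev_run h env y]

def Ex.deg (w : Nat → Nat) : Ex → Nat
  | .v i => w i
  | .c _ => 0
  | .a x _ => deg w x
  | .m x y => deg w x + deg w y

def Ex.hom (w : Nat → Nat) : Ex → Bool
  | .v _ => true
  | .c _ => true
  | .a x y => hom w x && hom w y && Nat.beq (deg w x) (deg w y)
  | .m x y => hom w x && hom w y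

theorem Ex.ev_hom (w : Nat → Nat) (env : Nat → ℝ) (k : ℝ) :
    ∀ e : Ex, e.hom w = true → (e.ev fun i => k ^ w i * env i) = k ^ e.deg w * e.ev env
  | .v _, _ => rfl
  | .c z, _ => by simp [Ex.ev, Ex.deg]
  | .a x y, h => by
    simp only [Ex.hom, Bool.and_eq_true, Nat.beq_eq] at h
    simp only [Ex.ev, Ex.deg, ev_hom w env k x h.1.1, ev_hom w env k y h.1.2, ← h.2]; ring
  | .m x y, h => by
    simp only [Ex.hom, Bool.and_eq_true] at h
    simp only [Ex.ev, Ex.deg, ev_hom w env k x h.1, ev_hom w env k y h.2]; ring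

def Ex.sub (σ : Nat → Ex) : Ex → Ex
  | .v i => σ i
  | .c z => .c z
  | .a x y => .a (sub σ x) (sub σ y)
  | .m x y => .m (sub σ x) (sub σ y)

theorem Ex.ev_sub (σ : Nat → Ex) (env : Nat → ℝ) :
    ∀ e : Ex, (e.sub σ).ev env = e.ev fun i => (σ i).ev env
  | .v _ => rfl
  | .c _ => rfl
  | .a x y => by simp only [Ex.sub, Ex.ev, ev_sub σ env x, ev_sub σ env y]
  | .m x y => by simp only [Ex.sub, Ex.ev, ev_sub σ env x, ev_sub σ env y]

/-- The determinant of a symmetric three by three matrix. -/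
def Ex.det (a b c d e f : Ex) : Ex :=
  .a (.a (.m a (.a (.m d f) (.m (.c (-1)) (.m e e))))
    (.m (.c (-1)) (.m b (.a (.m b f) (.m (.c (-1)) (.m c e))))))
    (.m c (.a (.m b e) (.m (.c (-1)) (.m c d))))

theorem Ex.ev_det (env : Nat → ℝ) (a b c d e f : Ex) : (Ex.det a b c d e f).ev env =
    a.ev env * (d.ev env * f.ev env - e.ev env ^ 2)
      - b.ev env * (b.ev env * f.ev env - c.ev env * e.ev env)
      + c.ev env * (b.ev env * e.ev env - c.ev env * d.ev env) := by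
  simp only [Ex.det, Ex.ev]; push_cast; ring

/-- The environment with four entries. -/
def env4 {T : Type} (a b c d : T) : Nat → T
  | 0 => a
  | 1 => b
  | 2 => c
  | _ => d

def wA : Nat → Nat := env4 1 1 0 0
def wB : Nat → Nat := env4 0 0 1 1

/-- The test on the product of the cone spanned by `(r0, t0)`, `(r1, t1)` and the cone spanned by
`(h0, k0)`, `(h1, k1)`. -/
def cell (e : Ex) (r0 t0 r1 t1 h0 k0 h1 k1 : Int) : Bool :=
  intOps.poly.poly.nn (e.run intOps.poly.poly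
    (env4 [[r0], [r1]] [[t0], [t1]] [[h0, h1]] [[k0, k1]]))

theorem cell_open {e : Ex} (hA : e.hom wA = true) (hB : e.hom wB = true)
    {r0 t0 r1 t1 h0 k0 h1 k1 : Int} (h : cell e r0 t0 r1 t1 h0 k0 h1 k1 = true)
    {m n m' n' : ℝ} (hm : 0 < m) (hn : 0 ≤ n) (hm' : 0 < m') (hn' : 0 ≤ n') :
    0 ≤ e.ev (env4 (r0 * m + r1 * n) (t0 * m + t1 * n) (h0 * m' + h1 * n') (k0 * m' + k1 * n')) := by
  have H := (hom_int.poly (div_nonneg hn' hm'.le)).poly (div_nonneg hn hm.le)
  have h1 := H.nn _ h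
  rw [Ex.ev_run H] at h1
  have h2 := mul_nonneg (pow_nonneg hm.le (e.deg wA))
    (mul_nonneg (pow_nonneg hm'.le (e.deg wB)) h1)
  rw [← Ex.ev_hom wB _ _ e hB, ← Ex.ev_hom wA _ _ e hA] at h2
  refine h2.trans_eq (congrArg (fun f => e.ev f) ?_)
  funext i
  match i with
  | 0 => simp only [env4, wA, wB, lev]; field_simp; ring
  | 1 => simp only [env4, wA, wB, lev]; field_simp; ring
  | 2 => simp only [env4, wA, wB, lev]; field_simp; ring
  | _ + 3 => simp only [env4, wA, wB, lev]; field_simp; ring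

theorem Ex.continuous_ev {X : Type} [TopologicalSpace X] {env : X → Nat → ℝ}
    (h : ∀ i, Continuous fun x => env x i) : ∀ e : Ex, Continuous fun x => e.ev (env x)
  | .v i => h i
  | .c _ => continuous_const
  | .a x y => (continuous_ev h x).add (continuous_ev h y)
  | .m x y => (continuous_ev h x).mul (continuous_ev h y)

theorem nonneg_of_pos {f : ℝ → ℝ} (hf : Continuous f) (h : ∀ x, 0 < x → 0 ≤ f x) {x : ℝ}
    (hx : 0 ≤ x) : 0 ≤ f x := by
  have h1 : IsClosed {x | 0 ≤ f x} := isClosed_le continuous_const hf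
  have h2 : closure (Set.Ioi (0 : ℝ)) ⊆ {x | 0 ≤ f x} := h1.closure_subset_iff.2 h
  rw [closure_Ioi] at h2
  exact h2 hx

theorem cell_sound {e : Ex} (hA : e.hom wA = true) (hB : e.hom wB = true)
    {r0 t0 r1 t1 h0 k0 h1 k1 : Int} (h : cell e r0 t0 r1 t1 h0 k0 h1 k1 = true)
    {m n m' n' : ℝ} (hm : 0 ≤ m) (hn : 0 ≤ n) (hm' : 0 ≤ m') (hn' : 0 ≤ n') :
    0 ≤ e.ev (env4 (r0 * m + r1 * n) (t0 * m + t1 * n) (h0 * m' + h1 * n') (k0 * m' + k1 * n')) := by
  refine nonneg_of_pos (f := fun m => e.ev (env4 (r0 * m + r1 * n) (t0 * m + t1 * n)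
    (h0 * m' + h1 * n') (k0 * m' + k1 * n'))) (Ex.continuous_ev (fun i => ?_) e) (fun m hm => ?_) hm
  · match i with
    | 0 => simp only [env4]; fun_prop
    | 1 => simp only [env4]; fun_prop
    | 2 => simp only [env4]; fun_prop
    | _ + 3 => simp only [env4]; fun_prop
  refine nonneg_of_pos (f := fun m' => e.ev (env4 (r0 * m + r1 * n) (t0 * m + t1 * n)
    (h0 * m' + h1 * n') (k0 * m' + k1 * n'))) (Ex.continuous_ev (fun i => ?_) e)
    (fun m' hm' => cell_open hA hB h hm hn hm' hn') hm'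
  match i with
  | 0 => simp only [env4]; fun_prop
  | 1 => simp only [env4]; fun_prop
  | 2 => simp only [env4]; fun_prop
  | _ + 3 => simp only [env4]; fun_prop

/-- Subdivision trees: a cone is split along the ray `p • first + q • second`. -/
inductive Tr where
  | leaf : Tr
  | sa (p q : Nat) (x y : Tr) : Tr
  | sb (p q : Nat) (x y : Tr) : Tr

def chk (e : Ex) : Tr → Int → Int → Int → Int → Int → Int → Int → Int → Bool
  | .leaf, r0, t0, r1, t1, h0, k0, h1, k1 => cell e r0 t0 r1 t1 h0 k0 h1 k1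
  | .sa p q x y, r0, t0, r1, t1, h0, k0, h1, k1 =>
    chk e x r0 t0 ((p + 1) * r0 + (q + 1) * r1) ((p + 1) * t0 + (q + 1) * t1) h0 k0 h1 k1 &&
    chk e y ((p + 1) * r0 + (q + 1) * r1) ((p + 1) * t0 + (q + 1) * t1) r1 t1 h0 k0 h1 k1
  | .sb p q x y, r0, t0, r1, t1, h0, k0, h1, k1 =>
    chk e x r0 t0 r1 t1 h0 k0 ((p + 1) * h0 + (q + 1) * h1) ((p + 1) * k0 + (q + 1) * k1) &&
    chk e y r0 t0 r1 t1 ((p + 1) * h0 + (q + 1) * h1) ((p + 1) * k0 + (q + 1) * k1) h1 k1

theorem split_cone (p q : Nat) {m n : ℝ} (hm : 0 ≤ m) (hn : 0 ≤ n) :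
    (∃ a b : ℝ, 0 ≤ a ∧ 0 ≤ b ∧ m = a + (p + 1) * b ∧ n = (q + 1) * b) ∨
    (∃ a b : ℝ, 0 ≤ a ∧ 0 ≤ b ∧ m = (p + 1) * a ∧ n = (q + 1) * a + b) := by
  have hp : (0 : ℝ) < p + 1 := by positivity
  have hq : (0 : ℝ) < q + 1 := by positivity
  rcases le_total (n / (q + 1)) (m / (p + 1)) with h | h
  · refine Or.inl ⟨m - (p + 1) * (n / (q + 1)), n / (q + 1), ?_, by positivity, by ring, ?_⟩
    · rw [le_div_iff₀ hp] at h; linarith
    · field_simp
  · refine Or.inr ⟨m / (p + 1), n - (q + 1) * (m / (p + 1)), by positivity, ?_, ?_, by ring⟩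
    · rw [le_div_iff₀ hq] at h; linarith
    · field_simp

theorem chk_sound {e : Ex} (hA : e.hom wA = true) (hB : e.hom wB = true) :
    ∀ (T : Tr) (r0 t0 r1 t1 h0 k0 h1 k1 : Int), chk e T r0 t0 r1 t1 h0 k0 h1 k1 = true →
    ∀ m n m' n' : ℝ, 0 ≤ m → 0 ≤ n → 0 ≤ m' → 0 ≤ n' →
    0 ≤ e.ev (env4 (r0 * m + r1 * n) (t0 * m + t1 * n) (h0 * m' + h1 * n') (k0 * m' + k1 * n'))
  | .leaf, _, _, _, _, _, _, _, _, h, _, _, _, _, hm, hn, hm', hn' =>
    cell_sound hA hB h hm hn hm' hn'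
  | .sa p q x y, r0, t0, r1, t1, h0, k0, h1, k1, h, m, n, m', n', hm, hn, hm', hn' => by
    simp only [chk, Bool.and_eq_true] at h
    rcases split_cone p q hm hn with ⟨a, b, ha, hb, rfl, rfl⟩ | ⟨a, b, ha, hb, rfl, rfl⟩
    · have := chk_sound hA hB x _ _ _ _ _ _ _ _ h.1 a b m' n' ha hb hm' hn'
      convert this using 3 <;> (push_cast; ring)
    · have := chk_sound hA hB y _ _ _ _ _ _ _ _ h.2 a b m' n' ha hb hm' hn'
      convert this using 3 <;> (push_cast; ring)
  | .sb p q x y, r0, t0, r1, t1, h0, k0, h1, k1, h, m, n, m', n', hm, hn, hm', hn' => by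
    simp only [chk, Bool.and_eq_true] at h
    rcases split_cone p q hm' hn' with ⟨a, b, ha, hb, rfl, rfl⟩ | ⟨a, b, ha, hb, rfl, rfl⟩
    · have := chk_sound hA hB x _ _ _ _ _ _ _ _ h.1 m n a b hm hn ha hb
      convert this using 3 <;> (push_cast; ring)
    · have := chk_sound hA hB y _ _ _ _ _ _ _ _ h.2 m n a b hm hn ha hb
      convert this using 3 <;> (push_cast; ring)

/-- The substitution `r ↦ r (h + κ k)`, `s ↦ -s h`. -/
def sg (κ : Nat) : Nat → Ex :=
  env4 (.m (.v 0) (.a (.v 2) (.m (.c κ) (.v 3)))) (.m (.c (-1)) (.m (.v 1) (.v 2))) (.v 2) (.v 3)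

theorem nn_half {e : Ex} {κ : Nat} {T1 T2 : Tr} (hA : e.hom wA = true) (hB : e.hom wB = true)
    (hA' : (e.sub (sg κ)).hom wA = true) (hB' : (e.sub (sg κ)).hom wB = true)
    (c1 : chk e T1 1 0 0 1 1 0 0 1 = true) (c2 : chk (e.sub (sg κ)) T2 1 0 0 1 1 0 0 1 = true)
    {ρ α : ℝ} (s : ℝ) (hρ : 0 ≤ ρ) (hα : 0 ≤ α) : 0 ≤ e.ev (env4 ρ s 1 α) := by
  rcases le_total 0 s with hs | hs
  · simpa using chk_sound hA hB T1 _ _ _ _ _ _ _ _ c1 ρ s 1 α hρ hs zero_le_one hα
  · have hk : 0 < 1 + (κ : ℝ) * α := by positivity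
    have h := chk_sound hA' hB' T2 _ _ _ _ _ _ _ _ c2 (ρ / (1 + κ * α)) (-s) 1 α (by positivity)
      (by linarith) zero_le_one hα
    rw [Ex.ev_sub] at h
    refine h.trans_eq (congrArg (fun f => e.ev f) ?_)
    funext i
    match i with
    | 0 => simp only [sg, env4, Ex.ev]; push_cast; field_simp; ring
    | 1 => simp [sg, env4, Ex.ev]
    | 2 => simp [sg, env4, Ex.ev]
    | _ + 3 => simp [sg, env4, Ex.ev]

end Pool.Agent.MP_515557_an.H14
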